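import Mathlib

/-!
# Floor inequalities
-/

namespace MP1a3e71

theorem idiv_facts (L q : ℤ) (hq : 0 < q) : q * (L / q) ≤ L ∧ L < q * (L / q) + q := by
  constructor
  · exact Int.mul_ediv_self_le (ne_of_gt hq)
  · have := Int.lt_mul_ediv_self_add (x := L) hq
    exact this

/-- residual inequality -/
theorem floor_core (r s h : ℤ) (hh : 1 ≤ h) (hr : 0 ≤ r) (hr' : r ≤ 2 * h) (hs : 0 ≤ s)
    (hs' : s ≤ 2 * h) :
    (r - s + h) / (2 * h + 1) + (2 * r + 1) / (2 * h + 1) + (2 * r - 1) / (2 * h + 1) ≤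
      (r + s + h) / (2 * h + 1) + (3 * r - s - 1 + h) / (2 * h + 1) := by
  have hq : (0 : ℤ) < 2 * h + 1 := by omega
  obtain ⟨a1, a2⟩ := idiv_facts (r - s + h) _ hq
  obtain ⟨b1, b2⟩ := idiv_facts (2 * r + 1) _ hq
  obtain ⟨c1, c2⟩ := idiv_facts (2 * r - 1) _ hq
  obtain ⟨d1, d2⟩ := idiv_facts (r + s + h) _ hq
  obtain ⟨e1, e2⟩ := idiv_facts (3 * r - s - 1 + h) _ hq
  have ha : -1 ≤ (r - s + h) / (2 * h + 1) := by
    rw [Int.le_ediv_iff_mul_le hq]; omega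
  have ha' : (r - s + h) / (2 * h + 1) < 2 := by
    rw [Int.ediv_lt_iff_lt_mul hq]; omega
  have hb : 0 ≤ (2 * r + 1) / (2 * h + 1) := by
    rw [Int.le_ediv_iff_mul_le hq]; omega
  have hb' : (2 * r + 1) / (2 * h + 1) < 2 := by
    rw [Int.ediv_lt_iff_lt_mul hq]; omega
  have hc : -1 ≤ (2 * r - 1) / (2 * h + 1) := by
    rw [Int.le_ediv_iff_mul_le hq]; omega
  have hc' : (2 * r - 1) / (2 * h + 1) < 2 := by
    rw [Int.ediv_lt_iff_lt_mul hq]; omega
  have hd : 0 ≤ (r + s + h) / (2 * h + 1) := by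
    rw [Int.le_ediv_iff_mul_le hq]; omega
  have hd' : (r + s + h) / (2 * h + 1) < 3 := by
    rw [Int.ediv_lt_iff_lt_mul hq]; omega
  have he : -1 ≤ (3 * r - s - 1 + h) / (2 * h + 1) := by
    rw [Int.le_ediv_iff_mul_le hq]; omega
  have he' : (3 * r - s - 1 + h) / (2 * h + 1) < 4 := by
    rw [Int.ediv_lt_iff_lt_mul hq]; omega
  generalize (r - s + h) / (2 * h + 1) = a at *
  generalize (2 * r + 1) / (2 * h + 1) = b at *
  generalize (2 * r - 1) / (2 * h + 1) = c at *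
  generalize (r + s + h) / (2 * h + 1) = d at *
  generalize (3 * r - s - 1 + h) / (2 * h + 1) = e at *
  interval_cases a <;> interval_cases b <;> try omega
  all_goals (interval_cases c <;> try omega)
  all_goals (interval_cases d <;> try omega)
  all_goals (interval_cases e <;> omega)

theorem floor_ineq (N i h : ℤ) (hh : 1 ≤ h) :
    (N - i + h) / (2 * h + 1) + (2 * N + 1) / (2 * h + 1) + (2 * N - 1) / (2 * h + 1) +
        i / (2 * h + 1) ≤
      (N + i + h) / (2 * h + 1) + (3 * N - i - 1 + h) / (2 * h + 1) + N / (2 * h + 1) := by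
  have hq : (0 : ℤ) < 2 * h + 1 := by omega
  have hq0 : (2 * h + 1 : ℤ) ≠ 0 := ne_of_gt hq
  obtain ⟨A, r, hr, hr', hN⟩ : ∃ A r, 0 ≤ r ∧ r ≤ 2 * h ∧ N = r + (2 * h + 1) * A :=
    ⟨N / (2 * h + 1), N % (2 * h + 1), Int.emod_nonneg _ hq0, by
      have := Int.emod_lt_of_pos N hq
      omega, (Int.emod_add_mul_ediv _ _).symm⟩
  obtain ⟨B, s, hs, hs', hI⟩ : ∃ B s, 0 ≤ s ∧ s ≤ 2 * h ∧ i = s + (2 * h + 1) * B :=
    ⟨i / (2 * h + 1), i % (2 * h + 1), Int.emod_nonneg _ hq0, by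
      have := Int.emod_lt_of_pos i hq
      omega, (Int.emod_add_mul_ediv _ _).symm⟩
  have e1 : (N - i + h) / (2 * h + 1) = (r - s + h) / (2 * h + 1) + (A - B) := by
    rw [← Int.add_mul_ediv_left _ _ hq0]; congr 1; rw [hN, hI]; ring
  have e2 : (2 * N + 1) / (2 * h + 1) = (2 * r + 1) / (2 * h + 1) + 2 * A := by
    rw [← Int.add_mul_ediv_left _ _ hq0]; congr 1; rw [hN]; ring
  have e3 : (2 * N - 1) / (2 * h + 1) = (2 * r - 1) / (2 * h + 1) + 2 * A := by
    rw [← Int.add_mul_ediv_left _ _ hq0]; congr 1; rw [hN]; ring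
  have e4 : i / (2 * h + 1) = B := by
    rw [hI, Int.add_mul_ediv_left _ _ hq0, Int.ediv_eq_zero_of_lt hs (by omega), zero_add]
  have e5 : (N + i + h) / (2 * h + 1) = (r + s + h) / (2 * h + 1) + (A + B) := by
    rw [← Int.add_mul_ediv_left _ _ hq0]; congr 1; rw [hN, hI]; ring
  have e6 : (3 * N - i - 1 + h) / (2 * h + 1) = (3 * r - s - 1 + h) / (2 * h + 1) + (3 * A - B) := by
    rw [← Int.add_mul_ediv_left _ _ hq0]; congr 1; rw [hN, hI]; ring
  have e7 : N / (2 * h + 1) = A := by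
    rw [hN, Int.add_mul_ediv_left _ _ hq0, Int.ediv_eq_zero_of_lt hr (by omega), zero_add]
  have := floor_core r s h hh hr hr' hs hs'
  rw [e1, e2, e3, e4, e5, e6, e7]
  omega

/-- odd symmetry of rounding -/
theorem round_neg (x h : ℤ) (hh : 1 ≤ h) : (-x + h) / (2 * h + 1) = -((x + h) / (2 * h + 1)) := by
  have hq : (0 : ℤ) < 2 * h + 1 := by omega
  have hq0 : (2 * h + 1 : ℤ) ≠ 0 := ne_of_gt hq
  have h1 : -x + h = (2 * h - (x + h) % (2 * h + 1)) + (2 * h + 1) * (-((x + h) / (2 * h + 1))) := by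
    have := Int.emod_add_mul_ediv (x + h) (2 * h + 1)
    linarith
  have h2 := Int.emod_nonneg (x + h) hq0
  have h3 := Int.emod_lt_of_pos (x + h) hq
  conv_lhs => rw [h1]
  rw [Int.add_mul_ediv_left _ _ hq0, Int.ediv_eq_zero_of_lt (by omega) (by omega), zero_add]

/-- Hermite's identity -/
theorem hermite (k h : ℕ) : (2 * k) / (2 * h + 1) = k / (2 * h + 1) + (k + h) / (2 * h + 1) := by
  have hq : 0 < 2 * h + 1 := by omega
  obtain ⟨A, r, hr, hk⟩ : ∃ A r, r < 2 * h + 1 ∧ k = (2 * h + 1) * A + r :=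
    ⟨k / (2 * h + 1), k % (2 * h + 1), Nat.mod_lt _ hq, (Nat.div_add_mod _ _).symm⟩
  have e1 : (2 * k) / (2 * h + 1) = 2 * A + (2 * r) / (2 * h + 1) := by
    rw [← Nat.mul_add_div hq]; congr 1; rw [hk]; ring
  have e2 : k / (2 * h + 1) = A := by
    rw [hk, Nat.mul_add_div hq, Nat.div_eq_of_lt hr, add_zero]
  have e3 : (k + h) / (2 * h + 1) = A + (r + h) / (2 * h + 1) := by
    rw [← Nat.mul_add_div hq]; congr 1; rw [hk]; ring
  rw [e1, e2, e3]
  rcases Nat.lt_or_ge h r with hlt | hge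
  · have f1 : (2 * r) / (2 * h + 1) = 1 := by
      rw [Nat.div_eq_iff (by omega)]; omega
    have f2 : (r + h) / (2 * h + 1) = 1 := by
      rw [Nat.div_eq_iff (by omega)]; omega
    omega
  · have f1 : (2 * r) / (2 * h + 1) = 0 := Nat.div_eq_of_lt (by omega)
    have f2 : (r + h) / (2 * h + 1) = 0 := Nat.div_eq_of_lt (by omega)
    omega

end MP1a3e71
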