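import Mathlib

/-!
# Definitions used in the statement for the binomial sum with weight `154 k + 15`
-/

namespace MP1a3e71

/-- `c_j = (6j)! / ((3j)! (j!)^3)`. -/
def cRat (j : ℕ) : ℚ :=
  ((6 * j).factorial : ℚ) / (((3 * j).factorial : ℚ) * (j.factorial : ℚ) ^ 3)

/-- `S_n = ∑_{j < n} (154 j + 15) c_j (-32768) ^ (n - 1 - j)`. -/
def sumS (n : ℕ) : ℚ :=
  ∑ j ∈ Finset.range n, (154 * (j : ℚ) + 15) * cRat j * (-32768) ^ (n - 1 - j)

/-- `a_n = S_n / (10 n (2n + 1) binom(2n, n))`. -/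
def seqA (n : ℕ) : ℚ :=
  sumS n / (10 * (n : ℚ) * (2 * (n : ℚ) + 1) * (Nat.choose (2 * n) n : ℚ))

end MP1a3e71
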