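import Mathlib
import Pool.Agent.Work.MP_1a3e71_nt.Defs

/-!
# The exact single-sum formula from the WZ pair
-/

namespace MP1a3e71

open Finset

/-- product of the first `k` odd numbers -/
def dA (k : ℕ) : ℚ := ∏ l ∈ range k, (2 * (l : ℚ) + 1)

/-- product of `2n+1` consecutive odd integers starting with `2i - 6n - 3` -/
def dO (n i : ℕ) : ℚ := ∏ l ∈ range (2 * n + 1), (2 * (i : ℚ) + 2 * (l : ℚ) - 6 * n - 3)

theorem dA_succ (k : ℕ) : dA (k + 1) = dA k * (2 * k + 1) := by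
  unfold dA; rw [Finset.prod_range_succ]

theorem dA_zero : dA 0 = 1 := by simp [dA]

theorem odd_ne (z : ℤ) : (2 * (z : ℚ) + 1) ≠ 0 := by
  intro h
  have : (2 * z + 1 : ℤ) = 0 := by exact_mod_cast h
  omega

theorem dO_succ_succ (n j : ℕ) :
    dO (n + 1) (j + 2) = (2 * (j : ℚ) - 6 * n - 5) * (2 * j - 2 * n - 1) * dO n j := by
  unfold dO
  rw [show 2 * (n + 1) + 1 = (2 * n + 1 + 1) + 1 by ring, Finset.prod_range_succ',
    Finset.prod_range_succ]
  have h : ∏ k ∈ range (2 * n + 1), (2 * ((j + 2 : ℕ) : ℚ) + 2 * ((k + 1 : ℕ) : ℚ) -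
      6 * ((n + 1 : ℕ) : ℚ) - 3) = ∏ l ∈ range (2 * n + 1), (2 * (j : ℚ) + 2 * (l : ℚ) - 6 * n - 3) := by
    apply Finset.prod_congr rfl
    intro k _
    push_cast; ring
  rw [h]
  push_cast
  ring

theorem dO_shift (n j : ℕ) :
    dO n (j + 1) * (2 * (j : ℚ) - 6 * n - 3) = dO n j * (2 * j - 2 * n - 1) := by
  have h1 : dO n j * (2 * j - 2 * n - 1) =
      ∏ l ∈ range (2 * n + 1 + 1), (2 * (j : ℚ) + 2 * (l : ℚ) - 6 * n - 3) := by
    rw [Finset.prod_range_succ]
    unfold dO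
    push_cast
    ring
  rw [h1, Finset.prod_range_succ']
  unfold dO
  have h : ∏ l ∈ range (2 * n + 1), (2 * ((j + 1 : ℕ) : ℚ) + 2 * (l : ℚ) - 6 * n - 3) =
      ∏ k ∈ range (2 * n + 1), (2 * (j : ℚ) + 2 * ((k + 1 : ℕ) : ℚ) - 6 * n - 3) := by
    apply Finset.prod_congr rfl
    intro k _
    push_cast; ring
  rw [h]
  push_cast
  ring

theorem dO_shift' (n j : ℕ) :
    dO n (j + 1) = dO n j * (2 * j - 2 * n - 1) / (2 * (j : ℚ) - 6 * n - 3) := by
  have hne : (2 * (j : ℚ) - 6 * n - 3) ≠ 0 := by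
    have := odd_ne ((j : ℤ) - 3 * n - 2)
    intro h
    apply this
    push_cast
    linarith
  rw [eq_div_iff hne, dO_shift]

theorem dO_base (n : ℕ) : dO (n + 1) 0 = 3 * (6 * n + 7) * (6 * n + 5) * dO n 0 := by
  have h0 := dO_succ_succ n 0
  have h1 := dO_shift (n + 1) 0
  have h2 := dO_shift (n + 1) 1
  push_cast at h0 h1 h2
  norm_num at h0 h1 h2
  have n1 : (2 * (n : ℚ) + 1) ≠ 0 := by positivity
  have n3 : (2 * (n : ℚ) + 3) ≠ 0 := by positivity
  have n7 : (6 * (n : ℚ) + 7) ≠ 0 := by positivity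
  have e1 : dO (n + 1) 1 * 3 = dO (n + 1) 0 := by
    apply mul_right_cancel₀ n3
    linear_combination -h1
  have e2 : dO (n + 1) 2 * (6 * n + 7) = dO (n + 1) 1 * (2 * n + 1) := by
    linear_combination -h2
  apply mul_right_cancel₀ n1
  rw [← e1]
  linear_combination (-3) * e2 + 3 * (6 * n + 7) * h0

theorem dO_base1 (n : ℕ) : dO (n + 1) 1 = (6 * n + 7) * (6 * n + 5) * dO n 0 := by
  have h1 := dO_shift (n + 1) 0
  rw [dO_base] at h1
  push_cast at h1
  norm_num at h1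
  have n3 : (2 * (n : ℚ) + 3) ≠ 0 := by positivity
  apply mul_right_cancel₀ n3
  linear_combination (-1 / 3) * h1

/-- the summand of the single sum -/
def gT (n i : ℕ) : ℚ :=
  -(4 * dA (n + 1 + i) * dO n i) / (64 ^ n * 4 ^ i * (n.factorial : ℚ) *
    ((2 * n + 1).factorial : ℚ) * (i.factorial : ℚ))

/-- the cubic polynomial of the WZ pair -/
def polP (x y : ℚ) : ℚ :=
  616 * x ^ 3 + 440 * x ^ 2 * y + 88 * x * y ^ 2 + 8 * y ^ 3 + 676 * x ^ 2 + 312 * x * y +
    36 * y ^ 2 + 214 * x + 46 * y + 15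

/-- the companion -/
def fT (n j : ℕ) : ℚ :=
  polP (n + 1) ((j : ℚ) - 2 * n - 2) * (2 * (j : ℚ) - 6 * n - 5) * dA (n + 1 + j) * dO n j /
    (64 ^ (n + 1) * 4 ^ j * ((n + 1).factorial : ℚ) * ((2 * n + 3).factorial : ℚ) *
      ((j + 1).factorial : ℚ))

theorem fs (n : ℕ) : ((n + 1).factorial : ℚ) = (n + 1) * (n.factorial : ℚ) := by
  rw [Nat.factorial_succ]; push_cast; ring

theorem fne (n : ℕ) : (n.factorial : ℚ) ≠ 0 := by
  exact_mod_cast Nat.factorial_ne_zero n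

theorem f23 (n : ℕ) : ((2 * n + 3).factorial : ℚ) =
    (2 * n + 3) * (2 * (n + 1)) * ((2 * n + 1).factorial : ℚ) := by
  rw [show 2 * n + 3 = 2 * n + 1 + 1 + 1 by ring, fs, fs]; push_cast; ring

theorem f23' (n : ℕ) : ((2 * (n + 1) + 1).factorial : ℚ) =
    (2 * n + 3) * (2 * (n + 1)) * ((2 * n + 1).factorial : ℚ) := by
  rw [show 2 * (n + 1) + 1 = 2 * n + 3 by ring, f23]

theorem fk2 (k : ℕ) : ((k + 2).factorial : ℚ) = (k + 2) * (k + 1) * (k.factorial : ℚ) := by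
  rw [show k + 2 = k + 1 + 1 by ring, fs, fs]; push_cast; ring

theorem wz_step (n k : ℕ) : fT n (k + 1) - fT n k = gT (n + 1) (k + 2) - gT n k := by
  unfold fT gT
  rw [show n + 1 + (k + 1) = (n + 1 + k) + 1 by ring, show n + 1 + 1 + (k + 2) = (n + 1 + k) + 1 + 1 + 1 by ring,
    dO_succ_succ, dO_shift', f23, f23', show k + 1 + 1 = k + 2 by ring, fk2]
  simp only [dA_succ, fs n, fs k, pow_succ]
  have hne : (2 * (k : ℚ) - 6 * n - 3) ≠ 0 := by
    have := odd_ne ((k : ℤ) - 3 * n - 2)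
    intro h
    apply this
    push_cast
    linarith
  have h1 := fne n
  have h2 := fne (2 * n + 1)
  have h3 := fne k
  have h4 : (64 : ℚ) ^ n ≠ 0 := by positivity
  have h5 : (4 : ℚ) ^ k ≠ 0 := by positivity
  unfold polP
  push_cast
  have h6 : ((n : ℚ) + 1) ≠ 0 := by positivity
  have h7 : (2 * (n : ℚ) + 3) ≠ 0 := by positivity
  have h9 : ((k : ℚ) + 1) ≠ 0 := by positivity
  have h10 : ((k : ℚ) + 2) ≠ 0 := by positivity
  have h7' : ((n : ℚ) * 2 + 3) ≠ 0 := by positivity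
  have hne' : ((k : ℚ) * 2 - n * 6 - 3) ≠ 0 := by
    intro h
    apply hne
    linarith
  generalize dA (n + 1 + k) = a
  generalize dO n k = o
  generalize (n.factorial : ℚ) = f1 at *
  generalize ((2 * n + 1).factorial : ℚ) = f2 at *
  generalize (k.factorial : ℚ) = f3 at *
  generalize (64 : ℚ) ^ n = x1 at *
  generalize (4 : ℚ) ^ k = x2 at *
  generalize (n : ℚ) = n at *
  generalize (k : ℚ) = k at *
  field_simp
  ring

theorem wz_base (n : ℕ) : gT (n + 1) 0 + gT (n + 1) 1 = fT n 0 := by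
  unfold fT gT
  rw [dO_base, dO_base1, show n + 1 + 1 + 0 = (n + 1) + 1 by ring,
    show n + 1 + 1 + 1 = (n + 1) + 1 + 1 by ring, show n + 1 + 0 = n + 1 by ring,
    dA_succ (n + 1 + 1), dA_succ (n + 1), f23, f23']
  simp only [fs n, pow_succ]
  have h1 := fne n
  have h2 := fne (2 * n + 1)
  have h4 : (64 : ℚ) ^ n ≠ 0 := by positivity
  unfold polP
  simp only [Nat.factorial_zero, Nat.cast_one, pow_zero, Nat.cast_zero]
  push_cast
  have h6 : ((n : ℚ) + 1) ≠ 0 := by positivity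
  have h7 : (2 * (n : ℚ) + 3) ≠ 0 := by positivity
  have h7' : ((n : ℚ) * 2 + 3) ≠ 0 := by positivity
  generalize dA (n + 1) = a
  generalize dO n 0 = o
  generalize (n.factorial : ℚ) = f1 at *
  generalize ((2 * n + 1).factorial : ℚ) = f2 at *
  generalize (64 : ℚ) ^ n = x1 at *
  generalize (n : ℚ) = n at *
  field_simp
  ring

theorem wz_partial_sum (n k : ℕ) :
    ∑ i ∈ range (k + 2), gT (n + 1) i - ∑ i ∈ range k, gT n i = fT n k := by
  induction k with
  | zero =>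
    rw [Finset.sum_range_succ, Finset.sum_range_succ, Finset.sum_range_zero, Finset.sum_range_zero,
      zero_add, sub_zero, wz_base]
  | succ k ih =>
    rw [show k + 1 + 2 = (k + 2) + 1 by ring, Finset.sum_range_succ,
      Finset.sum_range_succ _ k]
    have := wz_step n k
    linear_combination ih - this

end MP1a3e71
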