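import Mathlib
import Pool.Agent.Work.MP_1a3e71_nt.WZ

/-!
# The sum `S_n` as a single sum of `2n` products
-/

namespace MP1a3e71

open Finset

theorem dA_fact (k : ℕ) : dA k * (2 ^ k * (k.factorial : ℚ)) = ((2 * k).factorial : ℚ) := by
  induction k with
  | zero => simp [dA]
  | succ k ih =>
    rw [show 2 * (k + 1) = 2 * k + 1 + 1 by ring, fs, fs, fs, dA_succ, ← ih, pow_succ]
    push_cast
    ring

theorem dA_ne (k : ℕ) : dA k ≠ 0 := by
  unfold dA
  rw [Finset.prod_ne_zero_iff]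
  intro l _
  positivity

theorem dA_eq (k : ℕ) : dA k = ((2 * k).factorial : ℚ) / (2 ^ k * (k.factorial : ℚ)) := by
  rw [eq_div_iff (mul_ne_zero (by positivity) (fne k)), dA_fact]

theorem dO_top (n : ℕ) : dO n (2 * n + 2) = (-1) ^ n * dA n * dA (n + 1) := by
  unfold dO
  rw [show 2 * n + 1 = n + (n + 1) by ring, Finset.prod_range_add]
  have h1 : ∏ x ∈ range n, (2 * ((2 * n + 2 : ℕ) : ℚ) + 2 * (x : ℚ) - 6 * n - 3) =
      (-1) ^ n * dA n := by
    unfold dA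
    rw [← Finset.prod_range_reflect, ← Finset.card_range n, ← Finset.prod_const, Finset.card_range,
      ← Finset.prod_mul_distrib]
    apply Finset.prod_congr rfl
    intro l hl
    rw [Finset.mem_range] at hl
    have : ((n - 1 - l : ℕ) : ℚ) = (n : ℚ) - 1 - l := by
      rw [Nat.cast_sub (by omega), Nat.cast_sub (by omega)]; push_cast; ring
    rw [this]
    push_cast
    ring
  have h2 : ∏ x ∈ range (n + 1), (2 * ((2 * n + 2 : ℕ) : ℚ) + 2 * ((n + x : ℕ) : ℚ) - 6 * n - 3) =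
      dA (n + 1) := by
    unfold dA
    apply Finset.prod_congr rfl
    intro l _
    push_cast
    ring
  rw [h1, h2]

theorem fT_top (n : ℕ) : fT n (2 * n + 2) =
    (154 * ((n + 1 : ℕ) : ℚ) + 15) * cRat (n + 1) / (-32768) ^ (n + 1) := by
  unfold fT cRat
  rw [dO_top]
  have e1 : polP ((n : ℚ) + 1) (((2 * n + 2 : ℕ) : ℚ) - 2 * n - 2) =
      (154 * ((n + 1 : ℕ) : ℚ) + 15) * (2 * n + 3) ^ 2 := by
    unfold polP
    push_cast
    ring
  have e2 : (2 * n + 2 + 1).factorial = (2 * n + 3).factorial := rfl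
  have e3 := dA_fact (3 * (n + 1))
  rw [show 2 * (3 * (n + 1)) = 6 * (n + 1) by ring] at e3
  have e4 := dA_fact (n + 1)
  rw [show 2 * (n + 1) = 2 * n + 1 + 1 by ring, fs (2 * n + 1)] at e4
  have e5 : dA (n + 1) = dA n * (2 * n + 1) := dA_succ n
  have e7 : (2 * ((2 * n + 2 : ℕ) : ℚ) - 6 * n - 5) = -(2 * n + 1) := by push_cast; ring
  rw [e1, e2, e7, show n + 1 + (2 * n + 2) = 3 * (n + 1) by ring, ← e3, f23]
  have h64 : (64 : ℚ) ^ (n + 1) = (2 ^ (n + 1)) ^ 6 := by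
    rw [← pow_mul, mul_comm, pow_mul]; norm_num
  have h4 : (4 : ℚ) ^ (2 * n + 2) = (2 ^ (n + 1)) ^ 4 := by
    rw [← pow_mul, show (n + 1) * 4 = 2 * (2 * n + 2) by ring, pow_mul]; norm_num
  have h3 : ((-32768 : ℚ)) ^ (n + 1) = (-1) ^ (n + 1) * (2 ^ (n + 1)) ^ 15 := by
    rw [← pow_mul, mul_comm (n + 1) 15, pow_mul, ← mul_pow]; norm_num
  have h2 : (2 : ℚ) ^ (3 * (n + 1)) = (2 ^ (n + 1)) ^ 3 := by rw [← pow_mul, mul_comm]
  rw [h64, h4, h3, h2]
  have s1 : ((-1 : ℚ)) ^ (n + 1) * (-1) ^ (n + 1) = 1 := by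
    rw [← mul_pow]; norm_num
  have s2 : ((-1 : ℚ)) ^ n = -(-1) ^ (n + 1) := by rw [pow_succ]; ring
  rw [s2]
  have g1 := fne (n + 1)
  have g2 := fne (2 * n + 1)
  have g3 := fne (3 * (n + 1))
  have g4 : (2 : ℚ) ^ (n + 1) ≠ 0 := by positivity
  have e6 : ((2 * n + 1).factorial : ℚ) * (2 * ((n : ℚ) + 1)) =
      dA (n + 1) * (2 ^ (n + 1) * ((n + 1).factorial : ℚ)) := by
    rw [e4]; push_cast; ring
  have h23 : (2 * (n : ℚ) + 3) ≠ 0 := by positivity
  have hn1 : ((n : ℚ) + 1) ≠ 0 := by positivity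
  have hn1' : (2 * ((n : ℚ) + 1)) ≠ 0 := by positivity
  have hs : ((-1 : ℚ)) ^ (n + 1) ≠ 0 := by
    intro h; rw [h] at s1; norm_num at s1
  generalize (154 * ((n + 1 : ℕ) : ℚ) + 15) = q
  generalize dA (3 * (n + 1)) = a3
  generalize ((n + 1).factorial : ℚ) = f1 at *
  generalize ((2 * n + 1).factorial : ℚ) = f2 at *
  generalize ((3 * (n + 1)).factorial : ℚ) = f3 at *
  generalize (2 : ℚ) ^ (n + 1) = z at *
  generalize ((-1 : ℚ)) ^ (n + 1) = s at *
  generalize dA (n + 1) = a at *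
  generalize dA n = b at *
  have hL : q * (2 * (n : ℚ) + 3) ^ 2 * -(2 * n + 1) * a3 * (-s * b * a) /
      (z ^ 6 * z ^ 4 * f1 * ((2 * n + 3) * (2 * (n + 1)) * f2) *
        ((2 * n + 3) * (2 * (n + 1)) * f2)) = q * a3 * s / (z ^ 12 * f1 ^ 3) := by
    rw [div_eq_div_iff
      (mul_ne_zero (mul_ne_zero (mul_ne_zero (pow_ne_zero _ g4) (pow_ne_zero _ g4)) g1
        |> fun h => mul_ne_zero h (mul_ne_zero (mul_ne_zero h23 hn1') g2))
        (mul_ne_zero (mul_ne_zero h23 hn1') g2))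
      (mul_ne_zero (pow_ne_zero _ g4) (pow_ne_zero _ g1))]
    rw [e5] at e6
    rw [e5]
    linear_combination (-(q * a3 * s * z ^ 10 * f1 * (2 * n + 3) ^ 2 *
      (f2 * (2 * (n + 1)) + b * (2 * n + 1) * (z * f1)))) * e6
  have hR : q * (a3 * (z ^ 3 * f3) / (f3 * f1 ^ 3)) / (s * z ^ 15) =
      q * a3 * s / (z ^ 12 * f1 ^ 3) := by
    have : s = 1 / s := by rw [eq_div_iff hs, s1]
    rw [show q * a3 * s / (z ^ 12 * f1 ^ 3) = q * a3 * (1 / s) / (z ^ 12 * f1 ^ 3) by rw [← this]]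
    field_simp
  rw [hL, hR]

/-- the partial sums of the series -/
def sT (N : ℕ) : ℚ := ∑ j ∈ range N, (154 * (j : ℚ) + 15) * cRat j / (-32768) ^ j

theorem sT_eq (n : ℕ) : sT (n + 1) = ∑ i ∈ range (2 * n + 2), gT n i := by
  induction n with
  | zero =>
    have h0 : gT 0 0 = 12 := by
      unfold gT dA dO
      norm_num [Finset.prod_range_succ, Nat.factorial]
    have h1 : gT 0 1 = 3 := by
      unfold gT dA dO
      norm_num [Finset.prod_range_succ, Nat.factorial]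
    rw [show 2 * 0 + 2 = 2 by ring, Finset.sum_range_succ, Finset.sum_range_succ,
      Finset.sum_range_zero, h0, h1]
    unfold sT cRat
    norm_num [Nat.factorial]
  | succ n ih =>
    have h1 := wz_partial_sum n (2 * n + 2)
    have h2 : sT (n + 1 + 1) = sT (n + 1) +
        (154 * ((n + 1 : ℕ) : ℚ) + 15) * cRat (n + 1) / (-32768) ^ (n + 1) := by
      unfold sT
      rw [Finset.sum_range_succ]
    rw [h2, ← fT_top, ih, show 2 * (n + 1) + 2 = 2 * n + 2 + 2 by ring]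
    linear_combination -h1

theorem sumS_eq (n : ℕ) : sumS (n + 1) = (-32768) ^ n * sT (n + 1) := by
  unfold sumS sT
  rw [Finset.mul_sum]
  apply Finset.sum_congr rfl
  intro j hj
  rw [Finset.mem_range] at hj
  have h : ((-32768 : ℚ)) ^ n = (-32768) ^ (n + 1 - 1 - j) * (-32768) ^ j := by
    rw [← pow_add]; congr 1; omega
  rw [h]
  have : ((-32768 : ℚ)) ^ j ≠ 0 := pow_ne_zero _ (by norm_num)
  field_simp

/-- the summand divided by `2n + 3` -/
def vT (n i : ℕ) : ℚ :=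
  dA (n + 1 + i) * dO n i * ((n + 1).factorial : ℚ) /
    (4 ^ i * ((2 * n + 3).factorial : ℚ) * ((2 * n + 1).factorial : ℚ) * (i.factorial : ℚ))

/-- `S_N / (2 N (2N+1) binom(2N, N))` for `N = n + 1` -/
def xT (n : ℕ) : ℚ :=
  sumS (n + 1) / (2 * ((n : ℚ) + 1) * (2 * n + 3) * (Nat.choose (2 * (n + 1)) (n + 1) : ℚ))

theorem choose_eq (n : ℕ) : (Nat.choose (2 * (n + 1)) (n + 1) : ℚ) =
    (2 * (n + 1)) * ((2 * n + 1).factorial : ℚ) / (((n + 1).factorial : ℚ) * ((n + 1).factorial : ℚ)) := by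
  rw [Nat.cast_choose ℚ (by omega), show 2 * (n + 1) - (n + 1) = n + 1 by omega,
    show 2 * (n + 1) = 2 * n + 1 + 1 by ring, fs (2 * n + 1)]
  push_cast
  ring

theorem xT_eq (n : ℕ) : xT n = (-1) ^ (n + 1) * 2 ^ (9 * n + 1) * ∑ i ∈ range (2 * n + 2), vT n i := by
  unfold xT
  rw [sumS_eq, sT_eq, Finset.mul_sum, Finset.mul_sum, Finset.sum_div]
  apply Finset.sum_congr rfl
  intro i _
  unfold gT vT
  rw [choose_eq, f23, fs n]
  have h3 : ((-32768 : ℚ)) ^ n = (-1) ^ n * (2 ^ n) ^ 15 := by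
    rw [← pow_mul, mul_comm n 15, pow_mul, ← mul_pow]; norm_num
  have h64 : (64 : ℚ) ^ n = (2 ^ n) ^ 6 := by
    rw [← pow_mul, mul_comm, pow_mul]; norm_num
  have h9 : (2 : ℚ) ^ (9 * n + 1) = (2 ^ n) ^ 9 * 2 := by
    rw [pow_succ, ← pow_mul, mul_comm n 9]
  rw [h3, h64, h9, pow_succ (-1 : ℚ) n]
  have g1 := fne n
  have g2 := fne (2 * n + 1)
  have g3 := fne i
  have g4 : (2 : ℚ) ^ n ≠ 0 := by positivity
  have g5 : (4 : ℚ) ^ i ≠ 0 := by positivity
  have g6 : ((n : ℚ) + 1) ≠ 0 := by positivity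
  have g7 : (2 * (n : ℚ) + 3) ≠ 0 := by positivity
  generalize (n.factorial : ℚ) = f1 at *
  generalize ((2 * n + 1).factorial : ℚ) = f2 at *
  generalize (i.factorial : ℚ) = f3 at *
  generalize (2 : ℚ) ^ n = z at *
  generalize (4 : ℚ) ^ i = w at *
  generalize dA (n + 1 + i) = a at *
  generalize dO n i = b at *
  generalize ((-1 : ℚ)) ^ n = s at *
  field_simp
  ring

theorem seqA_eq (n : ℕ) : seqA (n + 1) = xT n / 5 := by
  unfold seqA xT
  push_cast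
  have h1 : (Nat.choose (2 * (n + 1)) (n + 1) : ℚ) ≠ 0 := by
    have := Nat.choose_pos (show n + 1 ≤ 2 * (n + 1) by omega)
    positivity
  have g6 : ((n : ℚ) + 1) ≠ 0 := by positivity
  have g7 : (2 * (n : ℚ) + 3) ≠ 0 := by positivity
  have g8 : (2 * ((n : ℚ) + 1) + 1) ≠ 0 := by positivity
  rw [show (2 * ((n : ℚ) + 1) + 1) = 2 * n + 3 by ring]
  field_simp
  ring

end MP1a3e71
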