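import Mathlib
import Pool.Agent.Work.MP_18afd0_nt.Basic
import Pool.Agent.Work.MP_1a3e71_nt.Sum
import Pool.Agent.Work.MP_1a3e71_nt.Floor

/-!
# Valuations of the summands
-/

namespace MP1a3e71

open Finset MP18afd0

/-- natural number version of `dA` -/
def dAn (k : ℕ) : ℕ := ∏ l ∈ range k, (2 * l + 1)

theorem dAn_cast (k : ℕ) : (dAn k : ℚ) = dA k := by
  unfold dAn dA
  push_cast
  rfl

theorem dAn_fact (k : ℕ) : dAn k * (2 ^ k * k.factorial) = (2 * k).factorial := by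
  have := dA_fact k
  rw [← dAn_cast] at this
  exact_mod_cast this

theorem dAn_ne (k : ℕ) : dAn k ≠ 0 := by
  unfold dAn
  rw [Finset.prod_ne_zero_iff]
  intro l _
  omega

theorem dO_zero (n : ℕ) : dO n 0 * dA (n + 1) = -dA (3 * n + 2) := by
  have h1 : dA (3 * n + 2) = dA (n + 1) * ∏ l ∈ range (2 * n + 1), (2 * ((n + 1 + l : ℕ) : ℚ) + 1) := by
    unfold dA
    rw [show 3 * n + 2 = (n + 1) + (2 * n + 1) by ring, Finset.prod_range_add]
  have h2 : dO n 0 = -∏ l ∈ range (2 * n + 1), (2 * ((n + 1 + l : ℕ) : ℚ) + 1) := by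
    unfold dO
    rw [← Finset.prod_range_reflect]
    have h3 : ∀ l ∈ range (2 * n + 1), (2 * ((0 : ℕ) : ℚ) + 2 * ((2 * n + 1 - 1 - l : ℕ) : ℚ) - 6 * n - 3) =
        (-1) * (2 * ((n + 1 + l : ℕ) : ℚ) + 1) := by
      intro l hl
      rw [Finset.mem_range] at hl
      have : ((2 * n + 1 - 1 - l : ℕ) : ℚ) = 2 * (n : ℚ) - l := by
        rw [show 2 * n + 1 - 1 - l = 2 * n - l by omega, Nat.cast_sub (by omega)]; push_cast; ring
      rw [this]
      push_cast
      ring
    rw [Finset.prod_congr rfl h3, Finset.prod_mul_distrib, Finset.prod_const, Finset.card_range]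
    have : ((-1 : ℚ)) ^ (2 * n + 1) = -1 := by
      rw [pow_succ, pow_mul]; norm_num
    rw [this]
    ring
  rw [h1, h2]
  ring

theorem dO_low (n : ℕ) : ∀ j : ℕ, j ≤ n + 1 → dO n j * dA (n + 1 - j) = -dA (3 * n + 2 - j) := by
  intro j
  induction j with
  | zero =>
    intro _
    exact dO_zero n
  | succ j ih =>
    intro hj
    have h1 := ih (by omega)
    have h2 := dO_shift n j
    obtain ⟨t, rfl⟩ : ∃ t, n = j + t := ⟨n - j, by omega⟩
    rw [show j + t + 1 - j = t + 1 by omega, show 3 * (j + t) + 2 - j = (2 * j + 3 * t + 1) + 1 by omega,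
      dA_succ, dA_succ] at h1
    rw [show j + t + 1 - (j + 1) = t by omega, show 3 * (j + t) + 2 - (j + 1) = 2 * j + 3 * t + 1 by omega]
    push_cast at h1 h2
    have hne : (2 * (2 * (j : ℚ) + 3 * t + 1) + 1) ≠ 0 := by positivity
    apply mul_right_cancel₀ hne
    linear_combination h1 - dA t * h2

theorem dO_high (n : ℕ) : ∀ t : ℕ, t ≤ 2 * n + 1 →
    dO n (n + 1 + t) = (-1) ^ (t + 1) * dA t * dA (2 * n + 1 - t) := by
  intro t
  induction t with
  | zero =>
    intro _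
    have := dO_low n (n + 1) le_rfl
    rw [Nat.sub_self, dA_zero, mul_one, show 3 * n + 2 - (n + 1) = 2 * n + 1 by omega] at this
    rw [add_zero, this, Nat.sub_zero, dA_zero]
    ring
  | succ t ih =>
    intro ht
    have h1 := ih (by omega)
    have h2 := dO_shift n (n + 1 + t)
    rw [h1] at h2
    obtain ⟨s, hs⟩ : ∃ s, 2 * n + 1 = t + 1 + s := ⟨2 * n + 1 - (t + 1), by omega⟩
    rw [show 2 * n + 1 - t = s + 1 by omega, dA_succ] at h2
    rw [show 2 * n + 1 - (t + 1) = s by omega, show n + 1 + (t + 1) = n + 1 + t + 1 by ring, dA_succ]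
    have hs' : 2 * (n : ℚ) + 1 = t + 1 + s := by exact_mod_cast hs
    have hsn : (n : ℚ) = (t + s) / 2 := by linarith
    push_cast at h2
    rw [hsn] at h2
    have hne : (2 * (s : ℚ) + 1) ≠ 0 := by positivity
    apply mul_right_cancel₀ hne
    rw [pow_succ (-1 : ℚ) (t + 1)]
    linear_combination -h2

variable {p : ℕ} [hp : Fact p.Prime]

theorem val_fact (b k : ℕ) (h : k < b) :
    padicValNat p k.factorial = ∑ e ∈ Finset.Ico 1 b, k / p ^ e := by
  apply padicValNat_factorial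
  have := Nat.log_le_self p k
  omega

theorem val_dAn (hodd : p % 2 = 1) (b k : ℕ) (h : 2 * k < b) :
    padicValNat p (dAn k) = ∑ e ∈ Finset.Ico 1 b, (k + (p ^ e - 1) / 2) / p ^ e := by
  have h2 : padicValNat p 2 = 0 := by
    apply padicValNat.eq_zero_of_not_dvd
    intro hd
    have := Nat.le_of_dvd (by norm_num) hd
    have := hp.out.two_le
    have : p = 2 := by omega
    omega
  have h1 : padicValNat p (dAn k * (2 ^ k * k.factorial)) = padicValNat p (2 * k).factorial := by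
    rw [dAn_fact]
  rw [padicValNat.mul (dAn_ne k) (mul_ne_zero (by positivity) (Nat.factorial_ne_zero k)),
    padicValNat.mul (by positivity) (Nat.factorial_ne_zero k), padicValNat.pow, h2, mul_zero,
    zero_add, val_fact b k (by omega), val_fact b (2 * k) h] at h1
  have h3 : ∑ e ∈ Finset.Ico 1 b, (2 * k) / p ^ e = ∑ e ∈ Finset.Ico 1 b, k / p ^ e +
      ∑ e ∈ Finset.Ico 1 b, (k + (p ^ e - 1) / 2) / p ^ e := by
    rw [← Finset.sum_add_distrib]
    apply Finset.sum_congr rfl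
    intro e _
    have ho : p ^ e % 2 = 1 := by
      rw [Nat.pow_mod, hodd]; simp
    obtain ⟨h, hh⟩ : ∃ h, p ^ e = 2 * h + 1 := ⟨p ^ e / 2, by omega⟩
    rw [hh, hermite, show (2 * h + 1 - 1) / 2 = h by omega]
  omega

theorem div_mem_val {a b : ℕ} (ha : a ≠ 0) (hb : b ≠ 0)
    (h : padicValNat p b ≤ padicValNat p a) : (a : ℚ) / (b : ℚ) ∈ ZP p := by
  rw [mem_ZP, padicNorm.div]
  have ha' : (a : ℚ) ≠ 0 := by exact_mod_cast ha
  have hb' : (b : ℚ) ≠ 0 := by exact_mod_cast hb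
  rw [padicNorm.eq_zpow_of_nonzero ha', padicNorm.eq_zpow_of_nonzero hb', padicValRat.of_nat,
    padicValRat.of_nat]
  have hp0 : (p : ℚ) ≠ 0 := p_ne
  have hp1 : (1 : ℚ) ≤ (p : ℚ) := by exact_mod_cast hp.out.one_lt.le
  rw [← zpow_sub₀ hp0]
  apply zpow_le_one_of_nonpos₀ hp1
  omega

theorem Un_div_val {a b : ℕ} (ha : a ≠ 0) (hb : b ≠ 0)
    (h : padicValNat p b = padicValNat p a) : Un p ((a : ℚ) / (b : ℚ)) := by
  unfold Un
  rw [padicNorm.div]
  have ha' : (a : ℚ) ≠ 0 := by exact_mod_cast ha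
  have hb' : (b : ℚ) ≠ 0 := by exact_mod_cast hb
  rw [padicNorm.eq_zpow_of_nonzero ha', padicNorm.eq_zpow_of_nonzero hb', padicValRat.of_nat,
    padicValRat.of_nat, h]
  have hp0 : (p : ℚ) ≠ 0 := p_ne
  rw [div_self]
  exact zpow_ne_zero _ hp0

theorem Dv_div_val {a b : ℕ} (m : ℕ) (ha : a ≠ 0) (hb : b ≠ 0)
    (h : padicValNat p b + m ≤ padicValNat p a) : Dv p m ((a : ℚ) / (b : ℚ)) := by
  rw [Dv_iff, div_div]
  have : ((b : ℚ) * (p : ℚ) ^ m) = ((b * p ^ m : ℕ) : ℚ) := by push_cast; ring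
  rw [this]
  have hpm : p ^ m ≠ 0 := pow_ne_zero _ hp.out.ne_zero
  apply div_mem_val ha (mul_ne_zero hb hpm)
  rw [padicValNat.mul hb hpm, padicValNat.prime_pow]
  exact h

end MP1a3e71
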