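import Mathlib
import Pool.Agent.Work.MP_1a3e71_nt.Val

/-!
# `p`-integrality of the summands for odd `p`
-/

namespace MP1a3e71

open Finset MP18afd0

theorem fl_low (n i d q : ℕ) (hd : n + 1 = i + d) (hq : q % 2 = 1) (hq3 : 3 ≤ q) :
    (d + (q - 1) / 2) / q + (2 * n + 3) / q + (2 * n + 1) / q + i / q ≤
      (n + 1 + i + (q - 1) / 2) / q + (2 * i + 3 * d - 1 + (q - 1) / 2) / q + (n + 1) / q := by
  obtain ⟨h, hh⟩ : ∃ h, q = 2 * h + 1 := ⟨q / 2, by omega⟩
  subst hh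
  rw [show (2 * h + 1 - 1) / 2 = h by omega]
  have h1 := floor_ineq ((n : ℤ) + 1) (i : ℤ) (h : ℤ) (by omega)
  have e1 : ((n : ℤ) + 1) - i + h = ((d + h : ℕ) : ℤ) := by push_cast; omega
  have e2 : 2 * ((n : ℤ) + 1) + 1 = ((2 * n + 3 : ℕ) : ℤ) := by push_cast; ring
  have e3 : 2 * ((n : ℤ) + 1) - 1 = ((2 * n + 1 : ℕ) : ℤ) := by push_cast; ring
  have e4 : ((n : ℤ) + 1) + i + h = ((n + 1 + i + h : ℕ) : ℤ) := by push_cast; ring
  have e5 : 3 * ((n : ℤ) + 1) - i - 1 + h = ((2 * i + 3 * d - 1 + h : ℕ) : ℤ) := by omega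
  have e6 : ((n : ℤ) + 1) = ((n + 1 : ℕ) : ℤ) := by push_cast; ring
  have e7 : (2 * (h : ℤ) + 1) = ((2 * h + 1 : ℕ) : ℤ) := by push_cast; ring
  rw [e1, e2, e3, e4, e5, e6, e7] at h1
  exact_mod_cast h1

theorem fl_high (n t s q : ℕ) (ht : 2 * n + 1 = t + s) (hq : q % 2 = 1) (hq3 : 3 ≤ q) :
    (2 * n + 3) / q + (2 * n + 1) / q + (n + 1 + t) / q ≤
      (n + 1 + (n + 1 + t) + (q - 1) / 2) / q + (s + (q - 1) / 2) / q + (t + (q - 1) / 2) / q +
        (n + 1) / q := by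
  obtain ⟨h, hh⟩ : ∃ h, q = 2 * h + 1 := ⟨q / 2, by omega⟩
  subst hh
  rw [show (2 * h + 1 - 1) / 2 = h by omega]
  have h1 := floor_ineq ((n : ℤ) + 1) ((n : ℤ) + 1 + t) (h : ℤ) (by omega)
  have h2 := round_neg (t : ℤ) (h : ℤ) (by omega)
  have e1 : ((n : ℤ) + 1) - ((n : ℤ) + 1 + t) + h = -t + h := by ring
  have e2 : 2 * ((n : ℤ) + 1) + 1 = ((2 * n + 3 : ℕ) : ℤ) := by push_cast; ring
  have e3 : 2 * ((n : ℤ) + 1) - 1 = ((2 * n + 1 : ℕ) : ℤ) := by push_cast; ring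
  have e4 : ((n : ℤ) + 1) + ((n : ℤ) + 1 + t) + h = ((n + 1 + (n + 1 + t) + h : ℕ) : ℤ) := by
    push_cast; ring
  have e5 : 3 * ((n : ℤ) + 1) - ((n : ℤ) + 1 + t) - 1 + h = ((s + h : ℕ) : ℤ) := by
    push_cast; omega
  have e8 : ((n : ℤ) + 1 + t) = ((n + 1 + t : ℕ) : ℤ) := by push_cast; ring
  rw [e1, h2, e2, e3, e4, e5, e8] at h1
  have e6 : ((n : ℤ) + 1) = ((n + 1 : ℕ) : ℤ) := by push_cast; ring
  have e7 : (2 * (h : ℤ) + 1) = ((2 * h + 1 : ℕ) : ℤ) := by push_cast; ring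
  have e9 : ((t : ℤ) + h) = ((t + h : ℕ) : ℤ) := by push_cast; ring
  rw [e6, e7, e9] at h1
  zify
  push_cast at h1 ⊢
  linarith

variable {p : ℕ} [hp : Fact p.Prime]

theorem odd_pow (hodd : p % 2 = 1) (e : ℕ) : p ^ e % 2 = 1 := by
  rw [Nat.pow_mod, hodd]; simp

theorem three_le (hodd : p % 2 = 1) : 3 ≤ p := by
  have := hp.out.two_le
  omega

theorem three_le_pow (hodd : p % 2 = 1) {e : ℕ} (he : 1 ≤ e) : 3 ≤ p ^ e := by
  calc 3 ≤ p := three_le hodd
    _ = p ^ 1 := (pow_one p).symm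
    _ ≤ p ^ e := Nat.pow_le_pow_right hp.out.pos he

/-- the extra condition at the prime `5` -/
def Extra (p n i m : ℕ) : Prop := m = 0 ∨ (m = 1 ∧ p = 5 ∧ (n + 1) % 5 = 0 ∧ i % 5 ≠ 2)

theorem sum_extra (m b : ℕ) (hb : 2 ≤ b) (f g : ℕ → ℕ)
    (h1 : f 1 + m ≤ g 1) (h : ∀ e, 1 ≤ e → f e ≤ g e) :
    ∑ e ∈ Finset.Ico 1 b, f e + m ≤ ∑ e ∈ Finset.Ico 1 b, g e := by
  rw [Finset.sum_eq_sum_Ico_succ_bot (show 1 < b by omega) f,
    Finset.sum_eq_sum_Ico_succ_bot (show 1 < b by omega) g]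
  have : ∑ e ∈ Finset.Ico (1 + 1) b, f e ≤ ∑ e ∈ Finset.Ico (1 + 1) b, g e := by
    apply Finset.sum_le_sum
    intro e he
    rw [Finset.mem_Ico] at he
    exact h e (by omega)
  omega

theorem val_low (hodd : p % 2 = 1) (n i d m : ℕ) (hd : n + 1 = i + d) (hm : Extra p n i m) :
    padicValNat p (dAn d * (2 * n + 3).factorial * (2 * n + 1).factorial * i.factorial) + m ≤
      padicValNat p (dAn (n + 1 + i) * dAn (2 * i + 3 * d - 1) * (n + 1).factorial) := by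
  have nf : ∀ n : ℕ, n.factorial ≠ 0 := Nat.factorial_ne_zero
  have na : ∀ n : ℕ, dAn n ≠ 0 := dAn_ne
  rw [padicValNat.mul (by simp [nf, na]) (nf _), padicValNat.mul (by simp [nf, na]) (nf _),
    padicValNat.mul (na _) (nf _), padicValNat.mul (by simp [nf, na]) (nf _),
    padicValNat.mul (na _) (na _)]
  obtain ⟨b, hb⟩ : ∃ b, b = 20 * n + 20 * i + 40 := ⟨_, rfl⟩
  rw [val_dAn hodd b d (by omega), val_fact b (2 * n + 3) (by omega),
    val_fact b (2 * n + 1) (by omega), val_fact b i (by omega),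
    val_dAn hodd b (n + 1 + i) (by omega), val_dAn hodd b (2 * i + 3 * d - 1) (by omega),
    val_fact b (n + 1) (by omega)]
  rw [← Finset.sum_add_distrib, ← Finset.sum_add_distrib, ← Finset.sum_add_distrib,
    ← Finset.sum_add_distrib, ← Finset.sum_add_distrib]
  apply sum_extra m b (by omega)
  · rcases hm with rfl | ⟨rfl, rfl, h5, h2⟩
    · rw [pow_one]
      exact fl_low n i d p hd hodd (three_le hodd)
    · omega
  · intro e he
    exact fl_low n i d (p ^ e) hd (odd_pow hodd e) (three_le_pow hodd he)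

theorem val_high (hodd : p % 2 = 1) (n t s m : ℕ) (ht : 2 * n + 1 = t + s)
    (hm : Extra p n (n + 1 + t) m) :
    padicValNat p ((2 * n + 3).factorial * (2 * n + 1).factorial * (n + 1 + t).factorial) + m ≤
      padicValNat p (dAn (n + 1 + (n + 1 + t)) * dAn s * dAn t * (n + 1).factorial) := by
  have nf : ∀ n : ℕ, n.factorial ≠ 0 := Nat.factorial_ne_zero
  have na : ∀ n : ℕ, dAn n ≠ 0 := dAn_ne
  rw [padicValNat.mul (by simp [nf, na]) (nf _), padicValNat.mul (nf _) (nf _),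
    padicValNat.mul (by simp [nf, na]) (nf _), padicValNat.mul (by simp [nf, na]) (na _),
    padicValNat.mul (na _) (na _)]
  obtain ⟨b, hb⟩ : ∃ b, b = 20 * n + 20 * t + 40 := ⟨_, rfl⟩
  rw [val_dAn hodd b t (by omega), val_fact b (2 * n + 3) (by omega),
    val_fact b (2 * n + 1) (by omega), val_fact b (n + 1 + t) (by omega),
    val_dAn hodd b (n + 1 + (n + 1 + t)) (by omega), val_dAn hodd b s (by omega),
    val_fact b (n + 1) (by omega)]
  rw [← Finset.sum_add_distrib, ← Finset.sum_add_distrib, ← Finset.sum_add_distrib,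
    ← Finset.sum_add_distrib, ← Finset.sum_add_distrib]
  apply sum_extra m b (by omega)
  · rcases hm with rfl | ⟨rfl, rfl, h5, h2⟩
    · rw [pow_one]
      exact fl_high n t s p ht hodd (three_le hodd)
    · omega
  · intro e he
    exact fl_high n t s (p ^ e) ht (odd_pow hodd e) (three_le_pow hodd he)

theorem Un_two' (hodd : p % 2 = 1) : Un p (2 : ℚ) := by
  have : ¬ p ∣ 2 := fun h => by
    have := Nat.le_of_dvd (by norm_num) h
    have := three_le hodd
    omega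
  exact_mod_cast Un_nat this

theorem Un_four' (hodd : p % 2 = 1) : Un p (4 : ℚ) := by
  have := (Un_two' hodd).pow 2
  norm_num at this
  exact this

theorem vT_Dv (hodd : p % 2 = 1) (n i m : ℕ) (hi : i < 2 * n + 2) (hm : Extra p n i m) :
    Dv p m (vT n i) := by
  have nf : ∀ n : ℕ, n.factorial ≠ 0 := Nat.factorial_ne_zero
  have na : ∀ n : ℕ, dAn n ≠ 0 := dAn_ne
  have g0 := fne (n + 1)
  have g1 := fne (2 * n + 3)
  have g2 := fne (2 * n + 1)
  have g3 := fne i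
  have g5 : (4 : ℚ) ^ i ≠ 0 := by positivity
  rcases Nat.le_total i (n + 1) with hle | hle
  · obtain ⟨d, hd⟩ : ∃ d, n + 1 = i + d := ⟨n + 1 - i, by omega⟩
    have h1 := dO_low n i hle
    rw [show n + 1 - i = d by omega, show 3 * n + 2 - i = 2 * i + 3 * d - 1 by omega] at h1
    have hv := val_low hodd n i d m hd hm
    have h2 := Dv_div_val m (by simp [nf, na]) (by simp [nf, na]) hv
    have h3 := h2.smul (neg_mem ((Un_four' hodd).pow i).inv.mem)
    refine h3.congr ?_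
    unfold vT
    push_cast
    rw [dAn_cast, dAn_cast, dAn_cast]
    have hda := dA_ne d
    have h4 : dO n i = -dA (2 * i + 3 * d - 1) / dA d := by
      rw [eq_div_iff hda, h1]
    rw [h4]
    field_simp
  · obtain ⟨t, ht⟩ : ∃ t, i = n + 1 + t := ⟨i - (n + 1), by omega⟩
    subst ht
    obtain ⟨s, hs⟩ : ∃ s, 2 * n + 1 = t + s := ⟨2 * n + 1 - t, by omega⟩
    have h1 := dO_high n t (by omega)
    rw [show 2 * n + 1 - t = s by omega] at h1
    have hv := val_high hodd n t s m hs hm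
    have h2 := Dv_div_val m (by simp [nf, na]) (by simp [nf, na]) hv
    have h3 := h2.smul (mul_mem (pow_mem (neg_mem (one_mem _)) (t + 1))
      ((Un_four' hodd).pow (n + 1 + t)).inv.mem)
    refine h3.congr ?_
    unfold vT
    push_cast
    rw [dAn_cast, dAn_cast, dAn_cast, h1]
    field_simp

theorem vT_mem (hodd : p % 2 = 1) (n i : ℕ) (hi : i < 2 * n + 2) : vT n i ∈ ZP p :=
  (vT_Dv hodd n i 0 hi (Or.inl rfl)).mem

theorem xT_mem_odd (hodd : p % 2 = 1) (n : ℕ) : xT n ∈ ZP p := by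
  rw [xT_eq]
  apply mul_mem (mul_mem (pow_mem (neg_mem (one_mem _)) _) (pow_mem (Un_two' hodd).mem _))
  apply sum_mem
  intro i hi
  rw [Finset.mem_range] at hi
  exact vT_mem hodd n i hi

end MP1a3e71
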