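import Mathlib
import Pool.Agent.Work.MP_1a3e71_nt.Mem

/-!
# The prime `2`, and the integer values of `xT`
-/

namespace MP1a3e71

open Finset MP18afd0

theorem val_two_fact {k : ℕ} (hk : k ≠ 0) : padicValNat 2 k.factorial + 1 ≤ k := by
  have := sub_one_mul_padicValNat_factorial_lt_of_ne_zero (p := 2) hk
  omega

theorem two_pow_div (k v : ℕ) (h : padicValNat 2 k.factorial ≤ v) :
    (2 : ℚ) ^ v / (k.factorial : ℚ) ∈ ZP 2 := by
  have h1 := div_mem_val (p := 2) (a := 2 ^ v) (b := k.factorial) (by positivity)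
    (Nat.factorial_ne_zero k) (by rw [padicValNat.prime_pow]; exact h)
  push_cast at h1
  exact h1

theorem Un2_odd (k : ℕ) : Un 2 (2 * (k : ℚ) + 1) := by
  have h : ¬ 2 ∣ 2 * k + 1 := by omega
  have := Un_nat (p := 2) h
  push_cast at this
  exact this

theorem Un2_dA (k : ℕ) : Un 2 (dA k) := by
  unfold dA
  exact Un_prod _ _ (fun l _ => Un2_odd l)

theorem dO_mem {p : ℕ} [hp : Fact p.Prime] (n i : ℕ) : dO n i ∈ ZP p := by
  unfold dO
  apply prod_mem
  intro l _
  have := int_mem (p := p) (2 * (i : ℤ) + 2 * l - 6 * n - 3)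
  push_cast at this
  exact this

theorem val_bound (n i : ℕ) (hn : 1 ≤ n) (hi : i < 2 * n + 2) :
    padicValNat 2 (2 * n + 1).factorial + padicValNat 2 i.factorial ≤ 8 * n - 2 * i := by
  have h1 : padicValNat 2 (2 * n + 1).factorial = padicValNat 2 (2 * n).factorial := by
    rw [Nat.factorial_succ, padicValNat.mul (by omega) (Nat.factorial_ne_zero _),
      padicValNat.eq_zero_of_not_dvd (by omega), zero_add]
  have h2 := val_two_fact (show 2 * n ≠ 0 by omega)
  rcases Nat.eq_zero_or_pos i with rfl | h0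
  · rw [Nat.factorial_zero, padicValNat.one, h1]; omega
  · rcases Nat.lt_or_ge i (2 * n + 1) with h | h
    · have h3 := val_two_fact (show i ≠ 0 by omega)
      omega
    · have : i = 2 * n + 1 := by omega
      subst this
      omega

theorem term_two (n i : ℕ) (hn : 1 ≤ n) (hi : i < 2 * n + 2) :
    (2 : ℚ) ^ (9 * n + 1) * vT n i ∈ ZP 2 := by
  have hb := val_bound n i hn hi
  set v1 := padicValNat 2 (2 * n + 1).factorial with hv1
  set v2 := padicValNat 2 i.factorial with hv2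
  obtain ⟨w, hw⟩ : ∃ w, 8 * n - 2 * i = v1 + v2 + w := ⟨8 * n - 2 * i - (v1 + v2), by omega⟩
  have m1 := two_pow_div (2 * n + 1) v1 (le_of_eq hv1.symm)
  have m2 := two_pow_div i v2 (le_of_eq hv2.symm)
  have hle : 2 * i ≤ 8 * n := by omega
  have e1 := dA_fact (n + 1)
  rw [show 2 * (n + 1) = 2 * n + 1 + 1 by ring, fs (2 * n + 1)] at e1
  have u1 : Un 2 (2 * (n : ℚ) + 3) := by
    have := Un2_odd (n + 1)
    push_cast at this
    convert this using 1
    ring
  have key : (2 : ℚ) ^ (9 * n + 1) * vT n i =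
      (2 : ℚ) ^ w * (2 ^ v1 / ((2 * n + 1).factorial : ℚ)) * (2 ^ v2 / (i.factorial : ℚ)) *
        (dA (n + 1 + i) * dO n i / ((2 * n + 3) * dA (n + 1))) := by
    unfold vT
    have g0 := fne (n + 1)
    have g2 := fne (2 * n + 1)
    have g3 := fne i
    have g5 : (4 : ℚ) ^ i = 2 ^ (2 * i) := by rw [pow_mul]; norm_num
    have g6 : (2 : ℚ) ^ (9 * n + 1) = 2 ^ (n + 1) * 2 ^ (2 * i) * 2 ^ w * 2 ^ v1 * 2 ^ v2 := by
      rw [← pow_add, ← pow_add, ← pow_add, ← pow_add]
      congr 1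
      omega
    have g7 := dA_ne (n + 1)
    have g8 := u1.ne_zero
    have g9 : (2 : ℚ) ^ (2 * i) ≠ 0 := by positivity
    have g10 : (2 : ℚ) ^ (n + 1) ≠ 0 := by positivity
    have g11 : ((n : ℚ) + 1) ≠ 0 := by positivity
    have g12 : (2 * ((n : ℚ) + 1)) * ((2 * n + 1).factorial : ℚ) =
        dA (n + 1) * (2 ^ (n + 1) * ((n + 1).factorial : ℚ)) := by
      rw [e1]; push_cast; ring
    rw [f23, g5, g6, mul_assoc (2 * (n : ℚ) + 3), g12]
    generalize dA (n + 1) = a at *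
    generalize dA (n + 1 + i) = a2 at *
    generalize dO n i = o at *
    generalize ((n + 1).factorial : ℚ) = f1 at *
    generalize ((2 * n + 1).factorial : ℚ) = f2 at *
    generalize (i.factorial : ℚ) = f3 at *
    generalize (2 : ℚ) ^ (2 * i) = z1 at *
    generalize (2 : ℚ) ^ (n + 1) = z2 at *
    field_simp
  rw [key]
  refine mul_mem (mul_mem (mul_mem (pow_mem ?_ _) m1) m2) ?_
  · exact_mod_cast nat_mem (p := 2) 2
  · exact mem_div_of_Un (mul_mem (Un2_dA _).mem (dO_mem _ _)) (u1.mul (Un2_dA _))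

theorem xT_mem_two (n : ℕ) (hn : 1 ≤ n) : xT n ∈ ZP 2 := by
  rw [xT_eq, mul_assoc, Finset.mul_sum]
  apply mul_mem (pow_mem (neg_mem (one_mem _)) _)
  apply sum_mem
  intro i hi
  rw [Finset.mem_range] at hi
  exact term_two n i hn hi

theorem int_of_mem {x : ℚ} (h : ∀ p : ℕ, ∀ hp : p.Prime, haveI : Fact p.Prime := ⟨hp⟩; x ∈ ZP p) :
    ∃ z : ℤ, x = z := by
  have hden : x.den = 1 := by
    by_contra hne
    obtain ⟨p, hp, hd⟩ := Nat.exists_prime_and_dvd hne
    have hfact : Fact p.Prime := ⟨hp⟩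
    exact (mem_ZP_iff_den (p := p)).1 (h p hp) hd
  exact ⟨x.num, (Rat.den_eq_one_iff x).1 hden |>.symm⟩

theorem xT_int (n : ℕ) (hn : 1 ≤ n) : ∃ z : ℤ, xT n = z := by
  apply int_of_mem
  intro p hp
  have hfact : Fact p.Prime := ⟨hp⟩
  rcases hp.eq_two_or_odd with rfl | h
  · exact xT_mem_two n hn
  · exact xT_mem_odd h n

end MP1a3e71
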