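import Mathlib
import Pool.Agent.Work.MP_1a3e71_nt.Two

/-!
# The block structure modulo `5`
-/

namespace MP1a3e71

open Finset MP18afd0

instance fact5 : Fact (Nat.Prime 5) := ⟨by norm_num⟩

theorem five_mem {x : ℚ} (hx : x ∈ ZP 5) : Dv 5 1 (5 * x) :=
  ⟨x, hx, by push_cast; ring⟩

theorem Cg_of_eq_add {x y z : ℚ} (hz : z ∈ ZP 5) (h : x = y + 5 * z) : Cg 5 1 x y := by
  unfold Cg
  rw [h, add_sub_cancel_left]
  exact five_mem hz

theorem odd_block (y : ℤ) : Cg 5 1 ((10 * (y : ℚ) + 7) * (10 * y + 9) * (10 * y + 11) * (10 * y + 13))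
    (-1) := by
  apply Cg_of_eq_add (z := ((2000 * y ^ 4 + 8000 * y ^ 3 + 11800 * y ^ 2 + 7600 * y + 1802 : ℤ) : ℚ))
    (int_mem _)
  push_cast
  ring

theorem fact_block (k : ℕ) : Cg 5 1 ((5 * (k : ℚ) + 1) * (5 * k + 2) * (5 * k + 3) * (5 * k + 4))
    (-1) := by
  apply Cg_of_eq_add (z := ((125 * k ^ 4 + 250 * k ^ 3 + 175 * k ^ 2 + 50 * k + 5 : ℕ) : ℚ))
    (nat_mem _)
  push_cast
  ring

theorem neg_one_pow_mem {p : ℕ} [hp : Fact p.Prime] (k : ℕ) : ((-1 : ℚ)) ^ k ∈ ZP p :=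
  pow_mem (neg_mem (one_mem _)) k

theorem dA_five (k : ℕ) : ∃ u : ℚ, dA (5 * k + 2) = 5 ^ k * dA k * u ∧ Cg 5 1 u (3 * (-1) ^ k) := by
  induction k with
  | zero =>
    refine ⟨3, ?_, Cg.of_eq (by norm_num)⟩
    unfold dA
    norm_num [Finset.prod_range_succ]
  | succ k ih =>
    obtain ⟨u, hu, hc⟩ := ih
    refine ⟨u * ((10 * ((k : ℤ) : ℚ) + 7) * (10 * ((k : ℤ) : ℚ) + 9) * (10 * ((k : ℤ) : ℚ) + 11) *
      (10 * ((k : ℤ) : ℚ) + 13)), ?_, ?_⟩
    · rw [show 5 * (k + 1) + 2 = 5 * k + 2 + 1 + 1 + 1 + 1 + 1 by ring,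
        dA_succ (5 * k + 2 + 1 + 1 + 1 + 1), dA_succ (5 * k + 2 + 1 + 1 + 1),
        dA_succ (5 * k + 2 + 1 + 1), dA_succ (5 * k + 2 + 1), dA_succ (5 * k + 2), dA_succ k]
      rw [hu, pow_succ]
      push_cast
      ring
    · refine (hc.mul (odd_block k) ?_ ?_).trans (Cg.of_eq ?_)
      · exact mul_mem (by exact_mod_cast nat_mem (p := 5) 3) (neg_one_pow_mem k)
      · have := int_mem (p := 5) ((10 * (k : ℤ) + 7) * (10 * k + 9) * (10 * k + 11) * (10 * k + 13))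
        push_cast at this ⊢
        exact this
      · rw [pow_succ]; ring

theorem prod_five (x : ℤ) (k : ℕ) : ∃ u : ℚ, ∏ l ∈ range (5 * k + 4), (10 * (x : ℚ) + 7 + 2 * l) =
    5 ^ k * (∏ l ∈ range k, (2 * (x : ℚ) + 3 + 2 * l)) * u ∧ Cg 5 1 u ((-1) ^ (k + 1)) := by
  induction k with
  | zero =>
    refine ⟨(10 * (x : ℚ) + 7) * (10 * x + 9) * (10 * x + 11) * (10 * x + 13), ?_, ?_⟩
    · norm_num [Finset.prod_range_succ]
      ring
    · exact (odd_block x).trans (Cg.of_eq (by norm_num))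
  | succ k ih =>
    obtain ⟨u, hu, hc⟩ := ih
    refine ⟨u * ((10 * ((x + k + 1 : ℤ) : ℚ) + 7) * (10 * ((x + k + 1 : ℤ) : ℚ) + 9) *
      (10 * ((x + k + 1 : ℤ) : ℚ) + 11) * (10 * ((x + k + 1 : ℤ) : ℚ) + 13)), ?_, ?_⟩
    · rw [show 5 * (k + 1) + 4 = 5 * k + 4 + 1 + 1 + 1 + 1 + 1 by ring]
      simp only [Finset.prod_range_succ _ (5 * k + 4 + 1 + 1 + 1 + 1),
        Finset.prod_range_succ _ (5 * k + 4 + 1 + 1 + 1), Finset.prod_range_succ _ (5 * k + 4 + 1 + 1),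
        Finset.prod_range_succ _ (5 * k + 4 + 1), Finset.prod_range_succ _ (5 * k + 4),
        Finset.prod_range_succ _ k]
      rw [hu, pow_succ]
      push_cast
      ring
    · refine (hc.mul (odd_block (x + k + 1)) (neg_one_pow_mem _) ?_).trans (Cg.of_eq ?_)
      · have := int_mem (p := 5) ((10 * (x + k + 1) + 7) * (10 * (x + k + 1) + 9) *
          (10 * (x + k + 1) + 11) * (10 * (x + k + 1) + 13))
        push_cast at this ⊢
        exact this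
      · rw [pow_succ (-1 : ℚ) (k + 1)]

theorem dO_five (m j : ℕ) : ∃ u : ℚ, dO (5 * m + 4) (5 * j + 2) = 5 ^ (2 * m + 1) * dO m j * u ∧
    Cg 5 1 u 1 := by
  obtain ⟨u, hu, hc⟩ := prod_five ((j : ℤ) - 3 * m - 3) (2 * m + 1)
  refine ⟨u, ?_, ?_⟩
  · have e1 : dO (5 * m + 4) (5 * j + 2) =
        ∏ l ∈ range (5 * (2 * m + 1) + 4), (10 * (((j : ℤ) - 3 * m - 3 : ℤ) : ℚ) + 7 + 2 * l) := by
      unfold dO
      rw [show 2 * (5 * m + 4) + 1 = 5 * (2 * m + 1) + 4 by ring]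
      apply Finset.prod_congr rfl
      intro l _
      push_cast
      ring
    have e2 : dO m j = ∏ l ∈ range (2 * m + 1), (2 * (((j : ℤ) - 3 * m - 3 : ℤ) : ℚ) + 3 + 2 * l) := by
      unfold dO
      apply Finset.prod_congr rfl
      intro l _
      push_cast
      ring
    rw [e1, hu, ← e2]
  · refine hc.trans (Cg.of_eq ?_)
    rw [show 2 * m + 1 + 1 = 2 * (m + 1) by ring, pow_mul]
    norm_num

theorem fact_five (k : ℕ) : ∃ u : ℚ, ((5 * k).factorial : ℚ) = 5 ^ k * (k.factorial : ℚ) * u ∧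
    Cg 5 1 u ((-1) ^ k) := by
  induction k with
  | zero => exact ⟨1, by norm_num, Cg.of_eq (by norm_num)⟩
  | succ k ih =>
    obtain ⟨u, hu, hc⟩ := ih
    refine ⟨u * ((5 * (k : ℚ) + 1) * (5 * k + 2) * (5 * k + 3) * (5 * k + 4)), ?_, ?_⟩
    · rw [show 5 * (k + 1) = 5 * k + 1 + 1 + 1 + 1 + 1 by ring, fs (5 * k + 1 + 1 + 1 + 1),
        fs (5 * k + 1 + 1 + 1), fs (5 * k + 1 + 1), fs (5 * k + 1), fs (5 * k), hu, fs k, pow_succ]
      push_cast
      ring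
    · refine (hc.mul (fact_block k) (neg_one_pow_mem _) ?_).trans (Cg.of_eq ?_)
      · have := nat_mem (p := 5) ((5 * k + 1) * (5 * k + 2) * (5 * k + 3) * (5 * k + 4))
        push_cast at this ⊢
        exact this
      · rw [pow_succ]

theorem fact_five4 (k : ℕ) : ∃ u : ℚ, ((5 * k + 4).factorial : ℚ) = 5 ^ k * (k.factorial : ℚ) * u ∧
    Cg 5 1 u ((-1) ^ (k + 1)) := by
  obtain ⟨u, hu, hc⟩ := fact_five k
  refine ⟨u * ((5 * (k : ℚ) + 1) * (5 * k + 2) * (5 * k + 3) * (5 * k + 4)), ?_, ?_⟩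
  · rw [show 5 * k + 4 = 5 * k + 1 + 1 + 1 + 1 by ring,
      fs (5 * k + 1 + 1 + 1), fs (5 * k + 1 + 1), fs (5 * k + 1), fs (5 * k), hu]
    push_cast
    ring
  · refine (hc.mul (fact_block k) (neg_one_pow_mem _) ?_).trans (Cg.of_eq ?_)
    · have := nat_mem (p := 5) ((5 * k + 1) * (5 * k + 2) * (5 * k + 3) * (5 * k + 4))
      push_cast at this ⊢
      exact this
    · rw [pow_succ]

theorem fact_five2 (k : ℕ) : ∃ u : ℚ, ((5 * k + 2).factorial : ℚ) = 5 ^ k * (k.factorial : ℚ) * u ∧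
    Cg 5 1 u (2 * (-1) ^ k) := by
  obtain ⟨u, hu, hc⟩ := fact_five k
  refine ⟨u * ((5 * (k : ℚ) + 1) * (5 * k + 2)), ?_, ?_⟩
  · rw [show 5 * k + 2 = 5 * k + 1 + 1 by ring, fs (5 * k + 1), fs (5 * k), hu]
    push_cast
    ring
  · have h1 : Cg 5 1 ((5 * (k : ℚ) + 1) * (5 * k + 2)) 2 := by
      apply Cg_of_eq_add (z := ((5 * k ^ 2 + 3 * k : ℕ) : ℚ)) (nat_mem _)
      push_cast
      ring
    refine (hc.mul h1 (neg_one_pow_mem _) ?_).trans (Cg.of_eq ?_)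
    · have := nat_mem (p := 5) ((5 * k + 1) * (5 * k + 2))
      push_cast at this ⊢
      exact this
    · ring

theorem four_five (j : ℕ) : ∃ u : ℚ, (4 : ℚ) ^ (5 * j + 2) = 4 ^ j * u ∧ Cg 5 1 u 1 := by
  refine ⟨16 * 256 ^ j, ?_, ?_⟩
  · rw [pow_add, pow_mul, show (4 : ℚ) ^ 5 = 4 * 256 by norm_num, mul_pow]
    ring
  · have h1 : Cg 5 1 (256 : ℚ) 1 := Cg_of_eq_add (z := ((51 : ℕ) : ℚ)) (nat_mem _) (by norm_num)
    have h2 : Cg 5 1 (16 : ℚ) 1 := Cg_of_eq_add (z := ((3 : ℕ) : ℚ)) (nat_mem _) (by norm_num)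
    have h3 := h1.pow (one_mem _) j
    refine (h2.mul h3 (one_mem _) ?_).trans (Cg.of_eq (by simp))
    apply pow_mem
    exact_mod_cast nat_mem (p := 5) 256

/-- the summand of the single sum -/
def uT (n i : ℕ) : ℚ :=
  dA (n + 1 + i) * dO n i * ((n + 1).factorial : ℚ) /
    (4 ^ i * ((2 * n + 2).factorial : ℚ) * ((2 * n + 1).factorial : ℚ) * (i.factorial : ℚ))

theorem uT_eq (n i : ℕ) : uT n i = (2 * n + 3) * vT n i := by
  unfold uT vT
  rw [show 2 * n + 3 = (2 * n + 2) + 1 by ring, fs (2 * n + 2)]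
  have g1 := fne (2 * n + 2)
  have g2 := fne (2 * n + 1)
  have g3 := fne i
  have g5 : (4 : ℚ) ^ i ≠ 0 := by positivity
  push_cast
  have g6 : (2 * (n : ℚ) + 2 + 1) ≠ 0 := by positivity
  have g7 : (2 * (n : ℚ) + 3) = (2 * (n : ℚ) + 2 + 1) := by ring
  rw [g7]
  field_simp

theorem Un5_of_Cg_pm {u : ℚ} {c : ℕ} (hc : ¬ 5 ∣ c) (k : ℕ) (h : Cg 5 1 u (c * (-1) ^ k)) : Un 5 u := by
  apply Un_of_Cg le_rfl h
  exact (Un_nat hc).mul ((Un_one.neg).pow k)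

theorem uT_five (m j : ℕ) (hmem : uT m j ∈ ZP 5) :
    Cg 5 1 (uT (5 * m + 4) (5 * j + 2)) (-uT m j) := by
  obtain ⟨u1, h1, c1⟩ := dA_five (m + 1 + j)
  obtain ⟨u2, h2, c2⟩ := dO_five m j
  obtain ⟨u3, h3, c3⟩ := fact_five (m + 1)
  obtain ⟨u4, h4, c4⟩ := fact_five (2 * m + 2)
  obtain ⟨u5, h5, c5⟩ := fact_five4 (2 * m + 1)
  obtain ⟨u6, h6, c6⟩ := fact_five2 j
  obtain ⟨u7, h7, c7⟩ := four_five j
  have U4 : Un 5 u4 := Un5_of_Cg_pm (c := 1) (by norm_num) (2 * m + 2) (c4.trans (Cg.of_eq (by push_cast; ring)))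
  have U5 : Un 5 u5 := Un5_of_Cg_pm (c := 1) (by norm_num) (2 * m + 1 + 1) (c5.trans (Cg.of_eq (by push_cast; ring)))
  have U6 : Un 5 u6 := Un5_of_Cg_pm (c := 2) (by norm_num) j (c6.trans (Cg.of_eq (by push_cast; ring)))
  have U7 : Un 5 u7 := Un5_of_Cg_pm (c := 1) (by norm_num) 0 (c7.trans (Cg.of_eq (by norm_num)))
  have three : (3 : ℚ) ∈ ZP 5 := by exact_mod_cast nat_mem (p := 5) 3
  have two : (2 : ℚ) ∈ ZP 5 := by exact_mod_cast nat_mem (p := 5) 2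
  have s2 : ((-1 : ℚ)) ^ (2 * m + 2) = 1 := by
    rw [show 2 * m + 2 = 2 * (m + 1) by ring, pow_mul]; norm_num
  have hnum : Cg 5 1 (u1 * u2 * u3) (3 * (-1) ^ j) := by
    have hA := (c1.mul c2 (mul_mem three (neg_one_pow_mem _)) (c2.mem (one_mem _)))
    have hB := hA.mul c3 (mul_mem (mul_mem three (neg_one_pow_mem _)) (one_mem _))
      (c3.mem (neg_one_pow_mem _))
    refine hB.trans (Cg.of_eq ?_)
    have : ((-1 : ℚ)) ^ (m + 1 + j) * (-1) ^ (m + 1) = (-1) ^ (2 * m + 2) * (-1) ^ j := by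
      rw [← pow_add, ← pow_add]; congr 1; ring
    rw [s2, one_mul] at this
    linear_combination 3 * this
  have hden : Cg 5 1 (u7 * u4 * u5 * u6) (2 * (-1) ^ j) := by
    have hA := c7.mul c4 (one_mem _) (c4.mem (neg_one_pow_mem _))
    have hB := hA.mul c5 (mul_mem (one_mem _) (neg_one_pow_mem _)) (c5.mem (neg_one_pow_mem _))
    have hC := hB.mul c6 (mul_mem (mul_mem (one_mem _) (neg_one_pow_mem _)) (neg_one_pow_mem _))
      (c6.mem (mul_mem two (neg_one_pow_mem _)))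
    refine hC.trans (Cg.of_eq ?_)
    rw [show 2 * m + 1 + 1 = 2 * m + 2 by ring, s2]
    ring
  have hsum : Dv 5 1 (u1 * u2 * u3 + u7 * u4 * u5 * u6) := by
    have := hnum.add hden
    have h8 : Dv 5 1 (3 * ((-1 : ℚ)) ^ j + 2 * (-1) ^ j) := by
      have := five_mem (neg_one_pow_mem (p := 5) j)
      exact this.congr (by ring)
    exact (Dv.add this h8).congr (by ring)
  have hU := ((U7.mul U4).mul U5).mul U6
  have hdv := (hsum.smul hmem).smul hU.inv.mem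
  refine hdv.congr ?_
  have e1 : uT (5 * m + 4) (5 * j + 2) = uT m j * (u1 * u2 * u3) / (u7 * u4 * u5 * u6) := by
    unfold uT
    rw [show 5 * m + 4 + 1 + (5 * j + 2) = 5 * (m + 1 + j) + 2 by ring, h1, h2,
      show 5 * m + 4 + 1 = 5 * (m + 1) by ring, h3,
      show 2 * (5 * m + 4) + 2 = 5 * (2 * m + 2) by ring, h4,
      show 2 * (5 * m + 4) + 1 = 5 * (2 * m + 1) + 4 by ring, h5, h6, h7]
    have n4 := U4.ne_zero
    have n5 := U5.ne_zero
    have n6 := U6.ne_zero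
    have n7 := U7.ne_zero
    have g1 := fne (2 * m + 2)
    have g2 := fne (2 * m + 1)
    have g3 := fne j
    have g5 : (4 : ℚ) ^ j ≠ 0 := by positivity
    rw [show (5 : ℚ) ^ (m + 1 + j) = 5 ^ m * 5 * 5 ^ j by rw [pow_add, pow_succ],
      show (5 : ℚ) ^ (2 * m + 1) = (5 ^ m) ^ 2 * 5 by rw [pow_succ, ← pow_mul, mul_comm m 2],
      show (5 : ℚ) ^ (m + 1) = 5 ^ m * 5 by rw [pow_succ],
      show (5 : ℚ) ^ (2 * m + 2) = (5 ^ m) ^ 2 * 25 by
        rw [pow_add, ← pow_mul, mul_comm m 2]; norm_num]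
    have g6 : (5 : ℚ) ^ m ≠ 0 := by positivity
    have g7 : (5 : ℚ) ^ j ≠ 0 := by positivity
    generalize dA (m + 1 + j) = a1
    generalize dO m j = a2
    generalize ((m + 1).factorial : ℚ) = a3
    generalize ((2 * m + 2).factorial : ℚ) = a4 at *
    generalize ((2 * m + 1).factorial : ℚ) = a5 at *
    generalize (j.factorial : ℚ) = a6 at *
    generalize (5 : ℚ) ^ m = z1 at *
    generalize (5 : ℚ) ^ j = z2 at *
    generalize (4 : ℚ) ^ j = z3 at *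
    field_simp
    ring
  rw [e1]
  have := hU.ne_zero
  generalize uT m j = w
  generalize u1 * u2 * u3 = x1 at *
  generalize u7 * u4 * u5 * u6 = x2 at *
  field_simp
  ring

end MP1a3e71
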