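import Mathlib
import Pool.Agent.Work.MP_1a3e71_nt.Five

/-!
# The recurrence and the conclusion modulo `5`
-/

namespace MP1a3e71

open Finset MP18afd0

/-- the inhomogeneous term of the recurrence -/
def gg (n : ℕ) : ℚ :=
  (154 * ((n : ℚ) + 1) + 15) * ((6 * (n + 1)).factorial : ℚ) /
    (((3 * (n + 1)).factorial : ℚ) * ((n + 1).factorial : ℚ) * ((2 * n + 3).factorial : ℚ))

theorem sumS_rec (n : ℕ) : sumS (n + 1 + 1) =
    -32768 * sumS (n + 1) + (154 * ((n : ℚ) + 1) + 15) * cRat (n + 1) := by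
  have h : sT (n + 1 + 1) = sT (n + 1) +
      (154 * ((n + 1 : ℕ) : ℚ) + 15) * cRat (n + 1) / (-32768) ^ (n + 1) := by
    unfold sT
    rw [Finset.sum_range_succ]
  rw [sumS_eq (n + 1), sumS_eq n, h, pow_succ]
  have : ((-32768 : ℚ)) ^ n ≠ 0 := pow_ne_zero _ (by norm_num)
  push_cast
  field_simp
  ring

theorem choose_succ (n : ℕ) : ((n : ℚ) + 2) * (Nat.choose (2 * (n + 1 + 1)) (n + 1 + 1) : ℚ) =
    2 * (2 * n + 3) * (Nat.choose (2 * (n + 1)) (n + 1) : ℚ) := by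
  rw [choose_eq, choose_eq, f23', fs (n + 1)]
  have g1 := fne (n + 1)
  have g2 : ((n : ℚ) + 2) ≠ 0 := by positivity
  push_cast
  have g3 : ((n : ℚ) + 1 + 1) = n + 2 := by ring
  rw [g3]
  field_simp

theorem xT_rec (n : ℕ) :
    4 * (2 * (n : ℚ) + 5) * xT (n + 1) + 65536 * ((n : ℚ) + 1) * xT n = gg n := by
  unfold xT gg
  rw [sumS_rec]
  have hC := choose_succ n
  have h1 : (Nat.choose (2 * (n + 1)) (n + 1) : ℚ) ≠ 0 := by
    have := Nat.choose_pos (show n + 1 ≤ 2 * (n + 1) by omega)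
    positivity
  have h2 : (Nat.choose (2 * (n + 1 + 1)) (n + 1 + 1) : ℚ) ≠ 0 := by
    have := Nat.choose_pos (show n + 1 + 1 ≤ 2 * (n + 1 + 1) by omega)
    positivity
  have g2 : ((n : ℚ) + 2) ≠ 0 := by positivity
  have g3 : (2 * (n : ℚ) + 3) ≠ 0 := by positivity
  have g5 : (2 * (n : ℚ) + 5) ≠ 0 := by positivity
  have g6 : ((n : ℚ) + 1) ≠ 0 := by positivity
  have hC' : (Nat.choose (2 * (n + 1 + 1)) (n + 1 + 1) : ℚ) =
      2 * (2 * n + 3) * (Nat.choose (2 * (n + 1)) (n + 1) : ℚ) / ((n : ℚ) + 2) := by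
    rw [eq_div_iff g2, mul_comm, hC]
  have e1 : 4 * (2 * (n : ℚ) + 5) * ((-32768 * sumS (n + 1) + (154 * ((n : ℚ) + 1) + 15) * cRat (n + 1)) /
      (2 * (((n + 1 : ℕ) : ℚ) + 1) * (2 * ((n + 1 : ℕ) : ℚ) + 3) *
        (Nat.choose (2 * (n + 1 + 1)) (n + 1 + 1) : ℚ))) =
      (-32768 * sumS (n + 1) + (154 * ((n : ℚ) + 1) + 15) * cRat (n + 1)) /
        ((2 * n + 3) * (Nat.choose (2 * (n + 1)) (n + 1) : ℚ)) := by
    rw [hC']
    push_cast
    rw [show ((n : ℚ) + 1 + 1) = n + 2 by ring, show (2 * ((n : ℚ) + 1) + 3) = 2 * n + 5 by ring]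
    field_simp
    ring
  have e2 : 65536 * ((n : ℚ) + 1) * (sumS (n + 1) /
      (2 * ((n : ℚ) + 1) * (2 * n + 3) * (Nat.choose (2 * (n + 1)) (n + 1) : ℚ))) =
      32768 * sumS (n + 1) / ((2 * n + 3) * (Nat.choose (2 * (n + 1)) (n + 1) : ℚ)) := by
    field_simp
    ring
  rw [e1, e2, ← add_div]
  rw [show -32768 * sumS (n + 1) + (154 * ((n : ℚ) + 1) + 15) * cRat (n + 1) +
    32768 * sumS (n + 1) = (154 * ((n : ℚ) + 1) + 15) * cRat (n + 1) by ring]
  unfold cRat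
  rw [choose_eq, f23]
  have k1 := fne (n + 1)
  have k2 := fne (2 * n + 1)
  have k3 := fne (3 * (n + 1))
  field_simp

/-! ### valuation of the inhomogeneous term -/

theorem fl_g (N q : ℕ) (hq : q % 2 = 1) (hq3 : 3 ≤ q) :
    (3 * N) / q + N / q + (2 * N + 1) / q ≤ (6 * N) / q := by
  have hq0 : 0 < q := by omega
  obtain ⟨A, r, hr, hN⟩ : ∃ A r, r < q ∧ N = q * A + r :=
    ⟨N / q, N % q, Nat.mod_lt _ hq0, (Nat.div_add_mod _ _).symm⟩
  have e1 : (3 * N) / q = 3 * A + (3 * r) / q := by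
    rw [← Nat.mul_add_div hq0]; congr 1; rw [hN]; ring
  have e2 : N / q = A := by
    rw [hN, Nat.mul_add_div hq0, Nat.div_eq_of_lt hr, add_zero]
  have e3 : (2 * N + 1) / q = 2 * A + (2 * r + 1) / q := by
    rw [← Nat.mul_add_div hq0]; congr 1; rw [hN]; ring
  have e4 : (6 * N) / q = 6 * A + (6 * r) / q := by
    rw [← Nat.mul_add_div hq0]; congr 1; rw [hN]; ring
  rw [e1, e2, e3, e4]
  have key : (3 * r) / q + (2 * r + 1) / q ≤ (6 * r) / q := by
    rcases Nat.lt_or_ge (3 * r) q with h | h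
    · rw [Nat.div_eq_of_lt h, Nat.div_eq_of_lt (show 2 * r + 1 < q by omega)]
      exact Nat.zero_le _
    · rcases Nat.lt_or_ge (3 * r) (2 * q) with h' | h'
      · have f1 : (3 * r) / q = 1 := by rw [Nat.div_eq_iff (by omega)]; omega
        rcases Nat.lt_or_ge (2 * r + 1) q with h2 | h2
        · rw [f1, Nat.div_eq_of_lt h2, Nat.le_div_iff_mul_le hq0]; omega
        · have f2 : (2 * r + 1) / q = 1 := by rw [Nat.div_eq_iff (by omega)]; omega
          rw [f1, f2, Nat.le_div_iff_mul_le hq0]; omega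
      · have f1 : (3 * r) / q = 2 := by rw [Nat.div_eq_iff (by omega)]; omega
        have f2 : (2 * r + 1) / q = 1 := by rw [Nat.div_eq_iff (by omega)]; omega
        rw [f1, f2, Nat.le_div_iff_mul_le hq0]; omega
  omega

theorem fl_g_strict (N q : ℕ) (hq : q % 2 = 1) (h1 : N < q) (h2 : q ≤ 5 * N) (h3 : 2 * N + 1 ≠ q) :
    (3 * N) / q + N / q + (2 * N + 1) / q < (6 * N) / q := by
  have hq0 : 0 < q := by omega
  rw [Nat.div_eq_of_lt h1]
  rcases Nat.lt_or_ge (3 * N) q with h | h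
  · have f3 : 1 ≤ (6 * N) / q := by rw [Nat.le_div_iff_mul_le hq0]; omega
    rw [Nat.div_eq_of_lt h, Nat.div_eq_of_lt (show 2 * N + 1 < q by omega)]
    omega
  · rcases Nat.lt_or_ge (3 * N) (2 * q) with h' | h'
    · have f1 : (3 * N) / q = 1 := by rw [Nat.div_eq_iff (by omega)]; omega
      rcases Nat.lt_or_ge (2 * N + 1) q with h4 | h4
      · have f3 : 2 ≤ (6 * N) / q := by rw [Nat.le_div_iff_mul_le hq0]; omega
        rw [f1, Nat.div_eq_of_lt h4]; omega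
      · have f2 : (2 * N + 1) / q = 1 := by rw [Nat.div_eq_iff (by omega)]; omega
        have f3 : 3 ≤ (6 * N) / q := by rw [Nat.le_div_iff_mul_le hq0]; omega
        rw [f1, f2]; omega
    · have f1 : (3 * N) / q = 2 := by rw [Nat.div_eq_iff (by omega)]; omega
      have f2 : (2 * N + 1) / q = 1 := by rw [Nat.div_eq_iff (by omega)]; omega
      have f3 : 4 ≤ (6 * N) / q := by rw [Nat.le_div_iff_mul_le hq0]; omega
      rw [f1, f2]; omega

/-- numerator and denominator of `gg` -/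
theorem gg_eq (n : ℕ) : gg n = (((154 * (n + 1) + 15) * (6 * (n + 1)).factorial : ℕ) : ℚ) /
    (((3 * (n + 1)).factorial * (n + 1).factorial * (2 * (n + 1) + 1).factorial : ℕ) : ℚ) := by
  unfold gg
  rw [show 2 * (n + 1) + 1 = 2 * n + 3 by ring]
  push_cast
  ring

theorem gg_den_val (N b : ℕ) (hb : 6 * N + 2 < b) :
    padicValNat 5 ((3 * N).factorial * N.factorial * (2 * N + 1).factorial) =
      ∑ e ∈ Finset.Ico 1 b, ((3 * N) / 5 ^ e + N / 5 ^ e + (2 * N + 1) / 5 ^ e) := by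
  have nf : ∀ n : ℕ, n.factorial ≠ 0 := Nat.factorial_ne_zero
  rw [padicValNat.mul (by simp [nf]) (nf _), padicValNat.mul (nf _) (nf _),
    val_fact b (3 * N) (by omega), val_fact b N (by omega), val_fact b (2 * N + 1) (by omega),
    ← Finset.sum_add_distrib, ← Finset.sum_add_distrib]

theorem five_odd (e : ℕ) : 5 ^ e % 2 = 1 := by
  rw [Nat.pow_mod]; simp

theorem three_le_five_pow {e : ℕ} (he : 1 ≤ e) : 3 ≤ 5 ^ e := by
  calc 3 ≤ 5 ^ 1 := by norm_num
    _ ≤ 5 ^ e := Nat.pow_le_pow_right (by norm_num) he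

/-- the inhomogeneous term is divisible by `5` unless `2N+1` is a power of `5` -/
theorem gg_dv (n : ℕ) (hn : ∀ m : ℕ, 1 ≤ m → 2 * (n + 1) + 1 ≠ 5 ^ m) : Dv 5 1 (gg n) := by
  have nf : ∀ n : ℕ, n.factorial ≠ 0 := Nat.factorial_ne_zero
  rw [gg_eq]
  obtain ⟨N, hN⟩ : ∃ N, N = n + 1 := ⟨_, rfl⟩
  rw [← hN] at hn ⊢
  have hN1 : 1 ≤ N := by omega
  obtain ⟨b, hb⟩ : ∃ b, b = 7 * N + 10 := ⟨_, rfl⟩
  apply Dv_div_val 1 (mul_ne_zero (by omega) (nf _)) (mul_ne_zero (mul_ne_zero (nf _) (nf _)) (nf _))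
  rw [gg_den_val N b (by omega), padicValNat.mul (by omega) (nf _), val_fact b (6 * N) (by omega)]
  have hle : ∀ e ∈ Finset.Ico 1 b, (3 * N) / 5 ^ e + N / 5 ^ e + (2 * N + 1) / 5 ^ e ≤
      (6 * N) / 5 ^ e := by
    intro e he
    rw [Finset.mem_Ico] at he
    exact fl_g N (5 ^ e) (five_odd e) (three_le_five_pow he.1)
  by_cases h5 : N % 5 = 0
  · have h1 : 1 ≤ padicValNat 5 (154 * N + 15) :=
      one_le_padicValNat_of_dvd (by omega) (by omega)
    have h2 := Finset.sum_le_sum hle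
    omega
  · have h2 := Finset.sum_lt_sum hle ?_
    · omega
    · -- the exponent
      refine ⟨Nat.log 5 N + 1, ?_, ?_⟩
      · rw [Finset.mem_Ico]
        have := Nat.log_le_self 5 N
        omega
      · apply fl_g_strict N _ (five_odd _)
        · exact Nat.lt_pow_succ_log_self (by norm_num) N
        · have := Nat.pow_log_le_self 5 (show N ≠ 0 by omega)
          rw [pow_succ]
          omega
        · exact hn _ (by omega)

theorem gg_unit (n m : ℕ) (hm : 1 ≤ m) (hn : 2 * (n + 1) + 1 = 5 ^ m) : Un 5 (gg n) := by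
  have nf : ∀ n : ℕ, n.factorial ≠ 0 := Nat.factorial_ne_zero
  rw [gg_eq]
  obtain ⟨N, hN⟩ : ∃ N, N = n + 1 := ⟨_, rfl⟩
  rw [← hN] at hn ⊢
  have hN1 : 1 ≤ N := by omega
  obtain ⟨b, hb⟩ : ∃ b, b = 7 * N + 10 := ⟨_, rfl⟩
  have h50 : 5 ^ m % 5 = 0 := by
    obtain ⟨k, rfl⟩ : ∃ k, m = k + 1 := ⟨m - 1, by omega⟩
    rw [pow_succ]; omega
  apply Un_div_val (mul_ne_zero (by omega) (nf _)) (mul_ne_zero (mul_ne_zero (nf _) (nf _)) (nf _))
  rw [gg_den_val N b (by omega), padicValNat.mul (by omega) (nf _), val_fact b (6 * N) (by omega),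
    padicValNat.eq_zero_of_not_dvd (show ¬ 5 ∣ 154 * N + 15 by omega), zero_add]
  apply Finset.sum_congr rfl
  intro e he
  rw [Finset.mem_Ico] at he
  rcases Nat.lt_or_ge m e with h | h
  · have h1 : 5 ^ (m + 1) ≤ 5 ^ e := Nat.pow_le_pow_right (by norm_num) h
    rw [pow_succ, ← hn] at h1
    rw [Nat.div_eq_of_lt (by omega), Nat.div_eq_of_lt (by omega), Nat.div_eq_of_lt (by omega),
      Nat.div_eq_of_lt (by omega)]
  · obtain ⟨d, rfl⟩ := Nat.exists_eq_add_of_le h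
    have h3 := three_le_five_pow he.1
    have ho := five_odd e
    have hod := five_odd d
    obtain ⟨c, hc⟩ : ∃ c, 5 ^ d = 2 * c + 1 := ⟨5 ^ d / 2, by omega⟩
    obtain ⟨k, hk⟩ : ∃ k, 5 ^ e = 2 * k + 1 := ⟨5 ^ e / 2, by omega⟩
    have hq0 : 0 < 5 ^ e := by omega
    have hNe : N = 5 ^ e * c + k := by
      have : 2 * N + 1 = 5 ^ e * (2 * c + 1) := by rw [hn, pow_add, hc]
      have h5 : 5 ^ e * (2 * c + 1) = 2 * (5 ^ e * c) + 5 ^ e := by ring
      omega
    have e1 : (3 * N) / 5 ^ e = 3 * c + 1 := by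
      have : 3 * N = 5 ^ e * (3 * c) + 3 * k := by rw [hNe]; ring
      rw [this, Nat.mul_add_div hq0]
      have : (3 * k) / 5 ^ e = 1 := by rw [Nat.div_eq_iff (by omega)]; omega
      omega
    have e2 : N / 5 ^ e = c := by
      rw [hNe, Nat.mul_add_div hq0, Nat.div_eq_of_lt (by omega), add_zero]
    have e3 : (2 * N + 1) / 5 ^ e = 2 * c + 1 := by
      have : 2 * N + 1 = 5 ^ e * (2 * c + 1) := by rw [hn, pow_add, hc]
      rw [this, Nat.mul_div_cancel_left _ hq0]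
    have e4 : (6 * N) / 5 ^ e = 6 * c + 2 := by
      have : 6 * N = 5 ^ e * (6 * c) + 6 * k := by rw [hNe]; ring
      rw [this, Nat.mul_add_div hq0]
      have : (6 * k) / 5 ^ e = 2 := by rw [Nat.div_eq_iff (by omega)]; omega
      omega
    rw [e1, e2, e3, e4]
    ring

end MP1a3e71
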