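import Mathlib
import Pool.Agent.Work.MP_1a3e71_nt.Rec

/-!
# Conclusions: divisibility by `5`, and positivity
-/

namespace MP1a3e71

open Finset MP18afd0

theorem sum_split (f : ℕ → ℚ) (M : ℕ) : ∑ i ∈ range (5 * M), f i =
    ∑ j ∈ range M, (f (5 * j) + f (5 * j + 1) + f (5 * j + 2) + f (5 * j + 3) + f (5 * j + 4)) := by
  induction M with
  | zero => simp
  | succ M ih =>
    rw [show 5 * (M + 1) = 5 * M + 1 + 1 + 1 + 1 + 1 by ring, Finset.sum_range_succ,
      Finset.sum_range_succ, Finset.sum_range_succ, Finset.sum_range_succ, Finset.sum_range_succ,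
      Finset.sum_range_succ, ih]
    ring

/-- the single sum -/
def sU (n : ℕ) : ℚ := ∑ i ∈ range (2 * n + 2), uT n i

theorem sU_eq (n : ℕ) : (2 * (n : ℚ) + 3) * xT n = ((-1) ^ (n + 1) * 2 ^ (9 * n + 1)) * sU n := by
  rw [xT_eq]
  unfold sU
  rw [Finset.sum_congr rfl (fun i _ => uT_eq n i), ← Finset.mul_sum]
  ring

theorem h5 : 5 % 2 = 1 := by norm_num

theorem uT_mem (n i : ℕ) (hi : i < 2 * n + 2) : uT n i ∈ ZP 5 := by
  rw [uT_eq]
  apply mul_mem _ (vT_mem h5 n i hi)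
  have := nat_mem (p := 5) (2 * n + 3)
  push_cast at this
  exact this

theorem uT_dv (n i : ℕ) (hi : i < 2 * n + 2) (h1 : (n + 1) % 5 = 0) (h2 : i % 5 ≠ 2) :
    Dv 5 1 (uT n i) := by
  rw [uT_eq]
  apply Dv.smul _ (vT_Dv h5 n i 1 hi (Or.inr ⟨rfl, rfl, h1, h2⟩))
  have := nat_mem (p := 5) (2 * n + 3)
  push_cast at this
  exact this

theorem sU_block (m : ℕ) (h : Dv 5 1 (sU m)) : Dv 5 1 (sU (5 * m + 4)) := by
  have h1 : Cg 5 1 (sU (5 * m + 4)) (-sU m) := by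
    unfold sU
    rw [show 2 * (5 * m + 4) + 2 = 5 * (2 * m + 2) by ring, sum_split, ← Finset.sum_neg_distrib]
    apply Cg.sum
    intro j hj
    rw [Finset.mem_range] at hj
    have d0 := uT_dv (5 * m + 4) (5 * j) (by omega) (by omega) (by omega)
    have d1 := uT_dv (5 * m + 4) (5 * j + 1) (by omega) (by omega) (by omega)
    have d3 := uT_dv (5 * m + 4) (5 * j + 3) (by omega) (by omega) (by omega)
    have d4 := uT_dv (5 * m + 4) (5 * j + 4) (by omega) (by omega) (by omega)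
    have d2 := uT_five m j (uT_mem m j (by omega))
    have := (((d0.add d1).add d2).add d3).add d4
    exact this.congr (by ring)
  have h2 := Dv.sub (Dv.add h1 (Dv_zero (p := 5) (k := 1))) h
  exact h2.congr (by ring)

theorem Un5_nat {c : ℕ} (hc : c % 5 ≠ 0) : Un 5 (c : ℚ) := Un_nat (by omega)

theorem pref_unit (n : ℕ) : Un 5 (((-1 : ℚ)) ^ (n + 1) * 2 ^ (9 * n + 1)) :=
  ((Un_one.neg).pow _).mul ((Un_two' h5).pow _)

theorem sU_of_xT (n : ℕ) (h : Dv 5 1 ((2 * (n : ℚ) + 3) * xT n)) : Dv 5 1 (sU n) := by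
  rw [sU_eq] at h
  exact h.cancel (pref_unit n)

theorem xT_of_sU (n : ℕ) (hn : n % 5 ≠ 1) (h : Dv 5 1 (sU n)) : Dv 5 1 (xT n) := by
  have h1 := h.smul (pref_unit n).mem
  rw [← sU_eq] at h1
  have h2 : Un 5 (2 * (n : ℚ) + 3) := by
    have := Un5_nat (c := 2 * n + 3) (by omega)
    push_cast at this
    exact this
  exact h1.cancel h2

theorem xT_mem5 (n : ℕ) : xT n ∈ ZP 5 := xT_mem_odd h5 n

theorem pow5_mod {m : ℕ} (hm : 1 ≤ m) : 5 ^ m % 5 = 0 := by
  obtain ⟨k, rfl⟩ : ∃ k, m = k + 1 := ⟨m - 1, by omega⟩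
  rw [pow_succ]; omega

theorem gg_dv' (n : ℕ) (hn : n % 5 ≠ 1) : Dv 5 1 (gg n) := by
  apply gg_dv
  intro m hm h
  have := pow5_mod hm
  omega

/-- stepping down -/
theorem step_down (n : ℕ) (h4 : n % 5 ≠ 4) (hg : Dv 5 1 (gg n)) (h : Dv 5 1 (xT (n + 1))) :
    Dv 5 1 (xT n) := by
  have h1 := xT_rec n
  have h2 : Dv 5 1 (((65536 * (n + 1) : ℕ) : ℚ) * xT n) := by
    have h3 := Dv.sub hg (h.smul (z := ((4 * (2 * n + 5) : ℕ) : ℚ)) (nat_mem _))
    refine h3.congr ?_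
    push_cast
    linear_combination -h1
  exact h2.cancel (Un5_nat (by omega))

/-- stepping up -/
theorem step_up (n : ℕ) (h4 : n % 5 ≠ 0) (hg : Dv 5 1 (gg n)) (h : Dv 5 1 (xT n)) :
    Dv 5 1 (xT (n + 1)) := by
  have h1 := xT_rec n
  have h2 : Dv 5 1 (((4 * (2 * n + 5) : ℕ) : ℚ) * xT (n + 1)) := by
    have h3 := Dv.sub hg (h.smul (z := ((65536 * (n + 1) : ℕ) : ℚ)) (nat_mem _))
    refine h3.congr ?_
    push_cast
    linear_combination -h1
  exact h2.cancel (Un5_nat (by omega))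

theorem from_block (m : ℕ) (h : Dv 5 1 (sU m)) :
    Dv 5 1 (xT (5 * m + 4)) ∧ Dv 5 1 (xT (5 * m + 3)) ∧ Dv 5 1 (xT (5 * m + 2)) ∧
      Dv 5 1 (xT (5 * m + 5)) := by
  have a4 := xT_of_sU (5 * m + 4) (by omega) (sU_block m h)
  have a3 := step_down (5 * m + 3) (by omega) (gg_dv' _ (by omega)) a4
  have a2 := step_down (5 * m + 2) (by omega) (gg_dv' _ (by omega)) a3
  have a5 := step_up (5 * m + 4) (by omega) (gg_dv' _ (by omega)) a4
  exact ⟨a4, a3, a2, a5⟩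

theorem sU_of_xT' (n : ℕ) (h : Dv 5 1 (xT n)) : Dv 5 1 (sU n) := by
  apply sU_of_xT
  have := h.smul (z := ((2 * n + 3 : ℕ) : ℚ)) (nat_mem _)
  push_cast at this
  exact this

theorem xT_zero : xT 0 = 5 * (1 / 4) := by
  unfold xT sumS cRat
  norm_num [Nat.factorial, Nat.choose]

theorem xT_zero_dv : Dv 5 1 (xT 0) := by
  rw [xT_zero]
  apply five_mem
  have := (Un_four' (p := 5) h5).inv.mem
  rwa [← one_div] at this

theorem sU_dv (n : ℕ) : Dv 5 1 (sU n) := by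
  induction n using Nat.strong_induction_on with
  | _ n ih =>
    obtain ⟨m, r, hr, hn⟩ : ∃ m r, r < 5 ∧ n = 5 * m + r :=
      ⟨n / 5, n % 5, Nat.mod_lt _ (by norm_num), by omega⟩
    have hcase : r = 0 ∨ r = 1 ∨ r = 2 ∨ r = 3 ∨ r = 4 := by omega
    rcases hcase with rfl | rfl | rfl | rfl | rfl
    · rcases Nat.eq_zero_or_pos m with rfl | hm
      · have : n = 0 := by omega
        subst this
        exact sU_of_xT' 0 xT_zero_dv
      · obtain ⟨k, rfl⟩ : ∃ k, m = k + 1 := ⟨m - 1, by omega⟩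
        have h1 := (from_block k (ih k (by omega))).2.2.2
        have : n = 5 * k + 5 := by omega
        rw [this]
        exact sU_of_xT' _ h1
    · apply sU_of_xT
      have : (2 * (n : ℚ) + 3) * xT n = 5 * (((2 * m + 1 : ℕ) : ℚ) * xT n) := by
        rw [hn]; push_cast; ring
      rw [this]
      exact five_mem (mul_mem (nat_mem _) (xT_mem5 n))
    · rw [hn]
      exact sU_of_xT' _ (from_block m (ih m (by omega))).2.2.1
    · rw [hn]
      exact sU_of_xT' _ (from_block m (ih m (by omega))).2.1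
    · rw [hn]
      exact sU_block m (ih m (by omega))

/-- divisibility by `5` when `2N+1` is not a power of `5` -/
theorem xT_dv (n : ℕ) (hn : ∀ m : ℕ, 1 ≤ m → 2 * (n + 1) + 1 ≠ 5 ^ m) : Dv 5 1 (xT n) := by
  by_cases h : n % 5 = 1
  · obtain ⟨m, rfl⟩ : ∃ m, n = 5 * m + 1 := ⟨n / 5, by omega⟩
    exact step_down (5 * m + 1) (by omega) (gg_dv _ hn) (from_block m (sU_dv m)).2.2.1
  · exact xT_of_sU n h (sU_dv n)

theorem xT_not_dv (n m : ℕ) (hm : 1 ≤ m) (hn : 2 * (n + 1) + 1 = 5 ^ m) : ¬ Dv 5 1 (xT n) := by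
  intro h
  have h0 := pow5_mod hm
  obtain ⟨k, rfl⟩ : ∃ k, n = 5 * k + 1 := ⟨n / 5, by omega⟩
  have h1 := gg_unit (5 * k + 1) m hm hn
  have h2 := (from_block k (sU_dv k)).2.2.1
  have h3 := xT_rec (5 * k + 1)
  have h4 : Dv 5 1 (gg (5 * k + 1)) := by
    rw [← h3]
    have e1 := h2.smul (z := ((4 * (2 * (5 * k + 1) + 5) : ℕ) : ℚ)) (nat_mem _)
    have e2 := h.smul (z := ((65536 * ((5 * k + 1) + 1) : ℕ) : ℚ)) (nat_mem _)
    exact (e1.add e2).congr (by push_cast; ring)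
  -- a unit is not divisible by 5
  obtain ⟨z, hz, hgz⟩ := h4
  have h6 : padicNorm 5 (gg (5 * k + 1)) = 1 := h1
  rw [hgz, padicNorm.mul, pow_one] at h6
  have h7 : padicNorm 5 ((5 : ℕ) : ℚ) < 1 := padicNorm.padicNorm_p_lt_one_of_prime
  have h8 : padicNorm 5 z ≤ 1 := hz
  have h9 : 0 ≤ padicNorm 5 z := padicNorm.nonneg _
  have h10 : 0 ≤ padicNorm 5 ((5 : ℕ) : ℚ) := padicNorm.nonneg _
  nlinarith

/-! ### positivity -/

theorem cRat_succ (j : ℕ) : cRat (j + 1) =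
    cRat j * (8 * (6 * j + 1) * (6 * j + 3) * (6 * j + 5)) / ((j : ℚ) + 1) ^ 3 := by
  unfold cRat
  rw [show 6 * (j + 1) = 6 * j + 1 + 1 + 1 + 1 + 1 + 1 by ring,
    show 3 * (j + 1) = 3 * j + 1 + 1 + 1 by ring, fs (6 * j + 1 + 1 + 1 + 1 + 1),
    fs (6 * j + 1 + 1 + 1 + 1), fs (6 * j + 1 + 1 + 1), fs (6 * j + 1 + 1), fs (6 * j + 1), fs (6 * j),
    fs (3 * j + 1 + 1), fs (3 * j + 1), fs (3 * j), fs j]
  have g1 := fne (3 * j)
  have g2 := fne j
  push_cast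
  have k1 : (3 * (j : ℚ) + 1) ≠ 0 := by positivity
  have k2 : (3 * (j : ℚ) + 2) ≠ 0 := by positivity
  have k3 : ((j : ℚ) + 1) ≠ 0 := by positivity
  rw [show (3 * (j : ℚ) + 1 + 1 + 1) = 3 * (j + 1) by ring, show (3 * (j : ℚ) + 1 + 1) = 3 * j + 2 by ring]
  field_simp
  ring

theorem cRat_pos (j : ℕ) : 0 < cRat j := by
  unfold cRat
  have h1 := Nat.factorial_pos (6 * j)
  have h2 := Nat.factorial_pos (3 * j)
  have h3 := Nat.factorial_pos j
  positivity

/-- absolute value of the `j`-th term -/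
def tj (j : ℕ) : ℚ := (154 * (j : ℚ) + 15) * cRat j / 32768 ^ j

theorem tj_succ (j : ℕ) : tj (j + 1) ≤ tj j / 16 := by
  unfold tj
  rw [cRat_succ, pow_succ (32768 : ℚ) j]
  have hc := cRat_pos j
  have h1 : (0 : ℚ) < 32768 ^ j := by positivity
  have hj : (0 : ℚ) ≤ (j : ℚ) := Nat.cast_nonneg j
  rw [div_div, div_le_div_iff₀ (by positivity) (by positivity), mul_div_assoc', div_mul_eq_mul_div,
    div_le_iff₀ (by positivity)]
  have key : (154 * (j : ℚ) + 169) * (6 * j + 1) * (6 * j + 3) * (6 * j + 5) ≤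
      256 * (154 * j + 15) * (j + 1) ^ 3 := by
    nlinarith [mul_nonneg hj hj, mul_nonneg (mul_nonneg hj hj) hj,
      mul_nonneg (mul_nonneg hj hj) (mul_nonneg hj hj)]
  have h2 := mul_le_mul_of_nonneg_left key (le_of_lt (mul_pos (mul_pos hc h1) (by norm_num : (0:ℚ) < 128)))
  push_cast
  linarith [h2]

theorem tj_le (j : ℕ) : tj j ≤ 15 / 16 ^ j := by
  induction j with
  | zero =>
    unfold tj cRat
    norm_num [Nat.factorial]
  | succ j ih =>
    refine (tj_succ j).trans ?_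
    rw [pow_succ, ← div_div]
    exact div_le_div_of_nonneg_right ih (by norm_num)

theorem sT_pos (n : ℕ) : 14 + 1 / 16 ^ n ≤ sT (n + 1) := by
  induction n with
  | zero =>
    unfold sT cRat
    norm_num [Nat.factorial]
  | succ n ih =>
    have h : sT (n + 1 + 1) = sT (n + 1) +
        (154 * ((n + 1 : ℕ) : ℚ) + 15) * cRat (n + 1) / (-32768) ^ (n + 1) := by
      unfold sT
      rw [Finset.sum_range_succ]
    have h1 : -tj (n + 1) ≤ (154 * ((n + 1 : ℕ) : ℚ) + 15) * cRat (n + 1) / (-32768) ^ (n + 1) := by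
      unfold tj
      have hc := cRat_pos (n + 1)
      have h2 : ((-32768 : ℚ)) ^ (n + 1) = (-1) ^ (n + 1) * 32768 ^ (n + 1) := by
        rw [← mul_pow]; norm_num
      rw [h2]
      rcases neg_one_pow_eq_or ℚ (n + 1) with hs | hs
      · rw [hs, one_mul]
        have : 0 ≤ (154 * ((n + 1 : ℕ) : ℚ) + 15) * cRat (n + 1) / 32768 ^ (n + 1) := by positivity
        linarith
      · rw [hs, neg_one_mul, div_neg]
    have h3 := tj_le (n + 1)
    rw [h]
    have h4 : (15 : ℚ) / 16 ^ (n + 1) + 1 / 16 ^ (n + 1) = 1 / 16 ^ n := by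
      rw [pow_succ]; field_simp; norm_num
    linarith

theorem sign_pos (n : ℕ) : 0 < (-1) ^ n * sumS (n + 1) := by
  rw [sumS_eq]
  have h1 := sT_pos n
  have h2 : (0 : ℚ) < 1 / 16 ^ n := by positivity
  have h3 : ((-1 : ℚ)) ^ n * ((-32768) ^ n * sT (n + 1)) = 32768 ^ n * sT (n + 1) := by
    rw [← mul_assoc, ← mul_pow]; norm_num
  rw [h3]
  have : 0 < sT (n + 1) := by linarith
  positivity

end MP1a3e71
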